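import Pool.Agent.Helper14.Sym.Count

/-! The abstract dichotomy for families of labelled arcs. -/

namespace Pool.Agent.Helper14.Sym

open Finset

set_option linter.unusedSectionVars false

variable {G : Type*} [CommGroup G] [DecidableEq G] {n : ℕ}

/-- Either there is a point `b` such that for all `ω` and all levels `l` there is a vertex in `V`
at distance `l` from `b` along labels of `ω`, or there is a point `b` which, for all `ω`, is
reached from a vertex of negative excess along a nonempty proper set of labels of `ω`. -/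
theorem comb_abs {Ω : Type*} [Nonempty Ω] (hn : 0 < n) (w : Ω → Fin n → G)
    (h1 : ∀ (ω : Ω) (S : Finset (Fin n)), S.Nonempty → ∏ i ∈ S, w ω i ≠ 1)
    (D : G → ℤ) (V : Finset G)
    (H : ∀ ω : Ω, ∃ s t : Fin n → G, (∀ i, t i * w ω i = s i) ∧
      (∀ v, D v = cnt s t univ v) ∧ ∀ i, t i ∈ V) :
    (∃ b, ∀ ω : Ω, ∀ l, 1 ≤ l → l ≤ n → ∃ S : Finset (Fin n), S.card = l ∧
      b * (∏ i ∈ S, w ω i)⁻¹ ∈ V) ∨
    ∃ b, ∀ ω : Ω, ∃ a ∈ V, D a < 0 ∧ ∃ S : Finset (Fin n), S.Nonempty ∧ S ≠ univ ∧
      a * ∏ i ∈ S, w ω i = b := by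
  classical
  obtain ⟨b, hb⟩ : ∃ b, 0 < D b := by
    obtain ⟨ω⟩ := ‹Nonempty Ω›
    obtain ⟨s, t, he, hD, _⟩ := H ω
    obtain ⟨b, hb⟩ := exists_pos he hn (h1 ω)
    exact ⟨b, by rw [hD]; exact hb⟩
  by_cases hfull : ∃ a₀, ∀ v, D v = (if v = b then 1 else 0) - (if v = a₀ then 1 else 0)
  · left
    refine ⟨b, fun ω l hl hln => ?_⟩
    obtain ⟨s, t, he, hD, ht⟩ := H ω
    have hb' : 0 < cnt s t univ b := by rw [← hD]; exact hb
    obtain ⟨S, a, hR, hS, _, hiff⟩ := trail he (h1 ω) hb'
    have hSu : S = univ := hiff.mpr (by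
      obtain ⟨a₀, ha₀⟩ := hfull
      exact ⟨a₀, fun v => by rw [← hD, ha₀]⟩)
    obtain ⟨S', a', hR', hc'⟩ := hR.sub l (by rw [hSu, card_univ, Fintype.card_fin]; exact hln)
    have hne : S'.Nonempty := by
      rw [← card_pos]; omega
    refine ⟨S', hc', ?_⟩
    have hp := hR'.prod he
    rw [← hp, mul_inv_cancel_right]
    obtain ⟨i, hi⟩ := hR'.exists_eq hne
    rw [hi]; exact ht i
  · right
    refine ⟨b, fun ω => ?_⟩
    obtain ⟨s, t, he, hD, ht⟩ := H ω
    have hb' : 0 < cnt s t univ b := by rw [← hD]; exact hb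
    obtain ⟨S, a, hR, hS, hneg, hiff⟩ := trail he (h1 ω) hb'
    have hSu : S ≠ univ := by
      intro h
      apply hfull
      obtain ⟨a₀, ha₀⟩ := hiff.mp h
      exact ⟨a₀, fun v => by rw [hD, ha₀]⟩
    obtain ⟨i, hi⟩ := hR.exists_eq hS
    exact ⟨a, by rw [hi]; exact ht i, by rw [hD]; exact hneg, S, hS, hSu, hR.prod he⟩

/-- The number of points of negative excess is at most the number of labels. -/
theorem card_neg_le {s t : Fin n → G} {D : G → ℤ} (hD : ∀ v, D v = cnt s t univ v)
    (N : Finset G) (hN : ∀ a ∈ N, D a < 0) : N.card ≤ n := by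
  classical
  have hsub : N ⊆ univ.image t := by
    intro a ha
    have h := hN a ha
    rw [hD] at h
    unfold cnt at h
    have h0 : 0 < (univ.filter (fun i => t i = a)).card := by
      by_contra hcon
      have : (univ.filter (fun i => t i = a)).card = 0 := by omega
      rw [this] at h
      have h2 : (0 : ℤ) ≤ ((univ.filter (fun i => s i = a)).card : ℤ) := Int.natCast_nonneg _
      push_cast at h
      linarith
    obtain ⟨i, hi⟩ := card_pos.mp h0
    rw [mem_image]
    exact ⟨i, mem_univ _, (mem_filter.mp hi).2⟩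
  refine (card_le_card hsub).trans ?_
  have := card_image_le (s := (univ : Finset (Fin n))) (f := t)
  simpa using this

end Pool.Agent.Helper14.Sym
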