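import Mathlib

/-! Combinatorial part: trails in a family of arcs. -/

namespace Pool.Agent.Helper14.Sym

open Finset

set_option linter.unusedSectionVars false

variable {G : Type*} [CommGroup G] [DecidableEq G] {n : ℕ}

/-- Number of arcs in `S` ending at `g` minus number of arcs in `S` starting at `g`
(arc `i` goes from `t i` to `s i`). -/
def cnt (s t : Fin n → G) (S : Finset (Fin n)) (g : G) : ℤ :=
  ((S.filter (fun i => s i = g)).card : ℤ) - ((S.filter (fun i => t i = g)).card : ℤ)

/-- `Reach s t U b S a`: there is a trail from `a` to `b` using exactly the arcs in `S ⊆ U`. -/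
inductive Reach (s t : Fin n → G) (U : Finset (Fin n)) (b : G) : Finset (Fin n) → G → Prop
  | nil : Reach s t U b ∅ b
  | cons {S : Finset (Fin n)} {a : G} {i : Fin n} :
      Reach s t U b S a → i ∈ U → i ∉ S → s i = a → Reach s t U b (insert i S) (t i)

variable {s t : Fin n → G} {U : Finset (Fin n)} {b : G}

theorem Reach.subset {S : Finset (Fin n)} {a : G} (h : Reach s t U b S a) : S ⊆ U := by
  induction h with
  | nil => exact empty_subset _
  | cons _ hi _ _ ih => exact insert_subset hi ih

theorem Reach.cnt {S : Finset (Fin n)} {a : G} (h : Reach s t U b S a) (v : G) :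
    cnt s t S v = (if v = b then 1 else 0) - (if v = a then 1 else 0) := by
  induction h with
  | nil => simp [Sym.cnt]
  | @cons S a i _ _ hi hs ih =>
    have e1 : (((insert i S).filter (fun j => s j = v)).card : ℤ) =
        (S.filter (fun j => s j = v)).card + (if v = a then 1 else 0) := by
      rw [filter_insert]
      by_cases h : s i = v
      · rw [if_pos h, card_insert_of_notMem (fun h' => hi (mem_filter.mp h').1),
          if_pos (by rw [← h, hs])]
        push_cast; ring
      · rw [if_neg h, if_neg (fun h' => h (by rw [hs, h']))]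
        ring
    have e2 : (((insert i S).filter (fun j => t j = v)).card : ℤ) =
        (S.filter (fun j => t j = v)).card + (if v = t i then 1 else 0) := by
      rw [filter_insert]
      by_cases h : t i = v
      · rw [if_pos h, card_insert_of_notMem (fun h' => hi (mem_filter.mp h').1),
          if_pos h.symm]
        push_cast; ring
      · rw [if_neg h, if_neg (fun h' => h h'.symm)]
        ring
    unfold Sym.cnt at ih ⊢
    rw [e1, e2]
    linarith

theorem Reach.prod {e : Fin n → G} (he : ∀ i, t i * e i = s i) {S : Finset (Fin n)} {a : G}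
    (h : Reach s t U b S a) : a * ∏ i ∈ S, e i = b := by
  induction h with
  | nil => simp
  | @cons S a i _ _ hi hs ih =>
    rw [prod_insert hi, ← mul_assoc, he, hs, ih]

theorem Reach.exists_eq {S : Finset (Fin n)} {a : G} (h : Reach s t U b S a) (hS : S.Nonempty) :
    ∃ i, a = t i := by
  cases h with
  | nil => exact absurd hS (by simp)
  | @cons S a i _ _ hi hs => exact ⟨i, rfl⟩

theorem Reach.sub {S : Finset (Fin n)} {a : G} (h : Reach s t U b S a) :
    ∀ l ≤ S.card, ∃ S' a', Reach s t U b S' a' ∧ S'.card = l := by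
  induction h with
  | nil =>
    intro l hl
    rw [card_empty] at hl
    exact ⟨∅, b, Reach.nil, by rw [card_empty]; omega⟩
  | @cons S a i h hU hi hs ih =>
    intro l hl
    rw [card_insert_of_notMem hi] at hl
    rcases Nat.lt_or_ge l (S.card + 1) with h' | h'
    · exact ih l (by omega)
    · exact ⟨_, _, Reach.cons h hU hi hs, by rw [card_insert_of_notMem hi]; omega⟩

theorem exists_max (s t : Fin n → G) (U : Finset (Fin n)) (b : G) :
    ∃ S a, Reach s t U b S a ∧ ∀ i ∈ U, s i = a → i ∈ S := by
  classical
  have hex : ∃ k, ∃ S a, Reach s t U b S a ∧ n - S.card = k := ⟨_, ∅, b, Reach.nil, rfl⟩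
  obtain ⟨S, a, h, hk⟩ := Nat.find_spec hex
  refine ⟨S, a, h, fun i hi hs => ?_⟩
  by_contra hn
  have h2 := Nat.find_min' hex ⟨insert i S, t i, Reach.cons h hi hn hs, rfl⟩
  rw [← hk] at h2
  have h3 : (insert i S).card = S.card + 1 := card_insert_of_notMem hn
  have h4 : (insert i S).card ≤ n := by
    simpa using card_le_univ (insert i S)
  omega

theorem cnt_max {S : Finset (Fin n)} {a : G} (h : Reach s t U b S a)
    (hmax : ∀ i ∈ U, s i = a → i ∈ S) : cnt s t U a ≤ (if a = b then 1 else 0) - 1 := by
  have h1 := h.cnt a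
  rw [if_pos rfl] at h1
  rw [← h1]
  unfold cnt
  have e1 : (U.filter (fun i => s i = a)).card ≤ (S.filter (fun i => s i = a)).card := by
    refine card_le_card (fun i hi => ?_)
    rw [mem_filter] at hi ⊢
    exact ⟨hmax i hi.1 hi.2, hi.2⟩
  have e2 : (S.filter (fun i => t i = a)).card ≤ (U.filter (fun i => t i = a)).card :=
    card_le_card (filter_subset_filter _ h.subset)
  have e1' : ((U.filter (fun i => s i = a)).card : ℤ) ≤ (S.filter (fun i => s i = a)).card := by
    exact_mod_cast e1
  have e2' : ((S.filter (fun i => t i = a)).card : ℤ) ≤ (U.filter (fun i => t i = a)).card := by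
    exact_mod_cast e2
  linarith

/-- A balanced nonempty family of arcs contains a closed trail. -/
theorem closed {e : Fin n → G} (he : ∀ i, t i * e i = s i) (hU : U.Nonempty)
    (h0 : ∀ v, cnt s t U v = 0) : ∃ S ⊆ U, S.Nonempty ∧ ∏ i ∈ S, e i = 1 := by
  obtain ⟨i, hi⟩ := hU
  obtain ⟨S, a, h, hmax⟩ := exists_max s t U (s i)
  have hab : a = s i := by
    by_contra hne
    have h1 := cnt_max h hmax
    rw [h0, if_neg hne] at h1
    norm_num at h1
  refine ⟨S, h.subset, ⟨i, hmax i hi hab.symm⟩, ?_⟩
  have h2 := h.prod he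
  rw [hab] at h2
  exact mul_eq_left.mp h2

theorem cnt_sdiff {S : Finset (Fin n)} (hS : S ⊆ U) (v : G) :
    cnt s t (U \ S) v = cnt s t U v - cnt s t S v := by
  unfold cnt
  have h : ∀ p : Fin n → Prop, ∀ [DecidablePred p],
      (((U \ S).filter p).card : ℤ) = (U.filter p).card - (S.filter p).card := by
    intro p _
    have h1 : (U.filter p) = (U \ S).filter p ∪ S.filter p := by
      rw [← filter_union, sdiff_union_of_subset hS]
    have h2 : Disjoint ((U \ S).filter p) (S.filter p) :=
      disjoint_filter_filter sdiff_disjoint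
    rw [h1, card_union_of_disjoint h2]
    push_cast; ring
  rw [h, h]
  ring

theorem exists_pos {e : Fin n → G} (he : ∀ i, t i * e i = s i) (hn : 0 < n)
    (h1 : ∀ S : Finset (Fin n), S.Nonempty → ∏ i ∈ S, e i ≠ 1) :
    ∃ b, 0 < cnt s t univ b := by
  by_contra hcon
  push Not at hcon
  have hsum : ∑ v ∈ univ.image s ∪ univ.image t, cnt s t univ v = 0 := by
    unfold cnt
    rw [sum_sub_distrib]
    have a1 := card_eq_sum_card_fiberwise (f := s) (s := (univ : Finset (Fin n)))
      (t := univ.image s ∪ univ.image t)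
      (fun i _ => by
        simp only [coe_union, coe_image, coe_univ, Set.image_univ]
        exact Or.inl ⟨i, rfl⟩)
    have a2 := card_eq_sum_card_fiberwise (f := t) (s := (univ : Finset (Fin n)))
      (t := univ.image s ∪ univ.image t)
      (fun i _ => by
        simp only [coe_union, coe_image, coe_univ, Set.image_univ]
        exact Or.inr ⟨i, rfl⟩)
    have a1' : ((univ : Finset (Fin n)).card : ℤ) = ∑ v ∈ univ.image s ∪ univ.image t,
        ((univ.filter (fun i => s i = v)).card : ℤ) := by
      rw [a1]; push_cast; rfl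
    have a2' : ((univ : Finset (Fin n)).card : ℤ) = ∑ v ∈ univ.image s ∪ univ.image t,
        ((univ.filter (fun i => t i = v)).card : ℤ) := by
      rw [a2]; push_cast; rfl
    rw [← a1', ← a2', sub_self]
  have hz : ∀ v, cnt s t univ v = 0 := by
    intro v
    by_cases hv : v ∈ univ.image s ∪ univ.image t
    · exact (sum_eq_zero_iff_of_nonpos (fun v _ => hcon v)).mp hsum v hv
    · rw [mem_union, not_or, mem_image, mem_image] at hv
      unfold cnt
      rw [filter_eq_empty_iff.mpr, filter_eq_empty_iff.mpr]
      · simp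
      · intro i _ h; exact hv.2 ⟨i, mem_univ _, h⟩
      · intro i _ h; exact hv.1 ⟨i, mem_univ _, h⟩
  obtain ⟨S, _, hS, hp⟩ := closed he (U := univ) ⟨⟨0, hn⟩, mem_univ _⟩ hz
  exact h1 S hS hp

/-- The structure of a maximal trail. -/
theorem trail {e : Fin n → G} (he : ∀ i, t i * e i = s i)
    (h1 : ∀ S : Finset (Fin n), S.Nonempty → ∏ i ∈ S, e i ≠ 1)
    (hb : 0 < cnt s t univ b) :
    ∃ S a, Reach s t univ b S a ∧ S.Nonempty ∧ cnt s t univ a < 0 ∧
      (S = univ ↔ ∃ a₀, ∀ v, cnt s t univ v = (if v = b then 1 else 0) - (if v = a₀ then 1 else 0)) := by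
  obtain ⟨S, a, h, hmax⟩ := exists_max s t univ b
  have hm := cnt_max h hmax
  have hab : a ≠ b := by
    intro hab
    rw [if_pos hab, hab] at hm
    linarith
  have hS : S.Nonempty := by
    rw [nonempty_iff_ne_empty]
    intro h0
    subst h0
    apply hab
    have := h.prod he
    simpa using this
  rw [if_neg hab] at hm
  refine ⟨S, a, h, hS, by linarith, ?_, ?_⟩
  · intro hu
    exact ⟨a, fun v => by rw [← hu, h.cnt v]⟩
  · rintro ⟨a₀, ha₀⟩
    have haa : a = a₀ := by
      by_contra hne
      have := ha₀ a
      rw [if_neg hab, if_neg hne] at this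
      linarith
    subst haa
    by_contra hne
    have hne' : (univ \ S).Nonempty := by
      rw [sdiff_nonempty]
      intro h'
      exact hne (univ_subset_iff.mp h')
    obtain ⟨S', _, hS', hp⟩ := closed he hne' (fun v => by
      rw [cnt_sdiff (subset_univ S), ha₀, h.cnt v, sub_self])
    exact h1 S' hS' hp

end Pool.Agent.Helper14.Sym
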