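import Mathlib

/-! Compression of a pencil to the kernels of its constant term. -/

namespace Pool.Agent.Helper14.Sym

open Module Matrix

theorem extend_basis {F V : Type*} [Field F] [AddCommGroup V] [Module F V] [FiniteDimensional F V]
    {n q : ℕ} (v : Fin n → V) (hv : LinearIndependent F v) (hq : finrank F V = n + q) :
    ∃ b : Basis (Fin n ⊕ Fin q) F V, ∀ i, b (Sum.inl i) = v i := by
  classical
  let W := Submodule.span F (Set.range v)
  obtain ⟨W', hW'⟩ := W.exists_isCompl
  have h1 : finrank F W = n := by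
    have := finrank_span_eq_card hv
    rwa [Fintype.card_fin] at this
  have h2 : finrank F W' = q := by
    have := Submodule.finrank_add_eq_of_isCompl hW'
    omega
  let b1 : Basis (Fin n) F W := Basis.span hv
  let b2 : Basis (Fin q) F W' := finBasisOfFinrankEq F W' h2
  refine ⟨(b1.prod b2).map (Submodule.prodEquivOfIsCompl W W' hW'), fun i => ?_⟩
  simp only [Basis.map_apply, Basis.prod_apply, LinearMap.coe_inl, LinearMap.coe_inr, Sum.elim_inl,
    Function.comp_apply, Submodule.coe_prodEquivOfIsCompl', ZeroMemClass.coe_zero, add_zero]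
  exact congrArg Subtype.val (Basis.span_apply hv i)

theorem compress {F : Type*} [Field F] [Infinite F] {m n : ℕ} (M₀ : Matrix (Fin m) (Fin m) F)
    (ξ η : Fin n → Fin m → F) (hξ : LinearIndependent F ξ) (hη : LinearIndependent F η)
    (hξ0 : ∀ i, ξ i ᵥ* M₀ = 0) (hη0 : ∀ j, M₀ *ᵥ η j = 0) :
    ∃ κ : F, ∀ (L : Matrix (Fin m) (Fin m) F) (p : F), (∀ t : F, (M₀ + t • L).det = t ^ n * p) →
      p = κ * (Matrix.of fun i j => ξ i ⬝ᵥ (L *ᵥ η j)).det := by
  classical
  have hnm : n ≤ m := by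
    have := hξ.fintype_card_le_finrank
    simpa using this
  obtain ⟨q, hq⟩ : ∃ q, m = n + q := ⟨m - n, by omega⟩
  have hfr : finrank F (Fin m → F) = n + q := by rw [finrank_fin_fun, hq]
  obtain ⟨b, hb⟩ := extend_basis ξ hξ hfr
  obtain ⟨b', hb'⟩ := extend_basis η hη hfr
  let e : Fin m ≃ Fin n ⊕ Fin q := (finCongr hq).trans finSumFinEquiv.symm
  let E := (Pi.basisFun F (Fin m)).reindex e
  let T := E.toMatrix b
  let T' := E.toMatrix b'
  have hT : ∀ i a, T i a = b a (e.symm i) := by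
    intro i a
    simp [T, E, Basis.toMatrix_apply]
  have hT' : ∀ i a, T' i a = b' a (e.symm i) := by
    intro i a
    simp [T', E, Basis.toMatrix_apply]
  have hTd : T.det ≠ 0 := by
    intro h
    have h3 := congrArg Matrix.det (b.toMatrix_mul_toMatrix_flip E)
    rw [Matrix.det_mul, Matrix.det_one, h, mul_zero] at h3
    exact zero_ne_one h3
  have hTd' : T'.det ≠ 0 := by
    intro h
    have h3 := congrArg Matrix.det (b'.toMatrix_mul_toMatrix_flip E)
    rw [Matrix.det_mul, Matrix.det_one, h, mul_zero] at h3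
    exact zero_ne_one h3
  let Φ : Matrix (Fin m) (Fin m) F → Matrix (Fin n ⊕ Fin q) (Fin n ⊕ Fin q) F :=
    fun X => Tᵀ * X.submatrix e.symm e.symm * T'
  have hΦd : ∀ X, (Φ X).det = T.det * T'.det * X.det := by
    intro X
    simp only [Φ]
    rw [det_mul, det_mul, det_transpose, det_submatrix_equiv_self]
    ring
  have hΦe : ∀ X a a', Φ X a a' = b a ⬝ᵥ (X *ᵥ b' a') := by
    intro X a a'
    simp only [Φ]
    rw [Matrix.mul_assoc, Matrix.mul_apply, dotProduct, ← Equiv.sum_comp e.symm]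
    refine Finset.sum_congr rfl (fun i _ => ?_)
    rw [transpose_apply, hT]
    congr 1
    rw [Matrix.mul_apply, mulVec, dotProduct, ← Equiv.sum_comp e.symm]
    refine Finset.sum_congr rfl (fun j _ => ?_)
    rw [hT', submatrix_apply]
  have hΦa : ∀ (t : F) X Y, Φ (X + t • Y) = Φ X + t • Φ Y := by
    intro t X Y
    ext a a'
    rw [Matrix.add_apply, Matrix.smul_apply, hΦe, hΦe, hΦe, add_mulVec, smul_mulVec, dotProduct_add,
      dotProduct_smul]
  have hM1 : ∀ i a', Φ M₀ (Sum.inl i) a' = 0 := by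
    intro i a'
    rw [hΦe, hb, dotProduct_mulVec, hξ0, zero_dotProduct]
  have hM2 : ∀ a j, Φ M₀ a (Sum.inl j) = 0 := by
    intro a j
    rw [hΦe, hb', hη0, dotProduct_zero]
  let Z : Matrix (Fin q) (Fin q) F := (Φ M₀).toBlocks₂₂
  refine ⟨Z.det / (T.det * T'.det), fun L p hL => ?_⟩
  let Y := Φ L
  have hY11 : (Matrix.of fun i j => ξ i ⬝ᵥ (L *ᵥ η j)) = Y.toBlocks₁₁ := by
    ext i j
    simp only [of_apply, toBlocks₁₁, Y]
    rw [hΦe, hb, hb']
  rw [hY11]
  have hblk : ∀ t : F, Φ (M₀ + t • L) = fromBlocks (t • Y.toBlocks₁₁) (t • Y.toBlocks₁₂)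
      (t • Y.toBlocks₂₁) (Z + t • Y.toBlocks₂₂) := by
    intro t
    rw [hΦa]
    ext a a'
    rcases a with i | i <;> rcases a' with j | j
    · simp [hM1, toBlocks₁₁, Y]
    · simp [hM1, toBlocks₁₂, Y]
    · simp [hM2, toBlocks₂₁, Y]
    · simp [toBlocks₂₂, Y, Z]
  have hfac : ∀ t : F, (Φ (M₀ + t • L)).det =
      t ^ n * (fromBlocks Y.toBlocks₁₁ Y.toBlocks₁₂ (t • Y.toBlocks₂₁) (Z + t • Y.toBlocks₂₂)).det := by
    intro t
    rw [hblk]
    have : fromBlocks (t • Y.toBlocks₁₁) (t • Y.toBlocks₁₂) (t • Y.toBlocks₂₁) (Z + t • Y.toBlocks₂₂) =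
        fromBlocks (t • (1 : Matrix (Fin n) (Fin n) F)) 0 0 (1 : Matrix (Fin q) (Fin q) F) *
        fromBlocks Y.toBlocks₁₁ Y.toBlocks₁₂ (t • Y.toBlocks₂₁) (Z + t • Y.toBlocks₂₂) := by
      rw [fromBlocks_multiply]
      simp
    rw [this, det_mul, det_fromBlocks_zero₂₁, det_smul, det_one, det_one, Fintype.card_fin]
    ring
  let g : Polynomial F := (fromBlocks (Y.toBlocks₁₁.map Polynomial.C) (Y.toBlocks₁₂.map Polynomial.C)
      ((Polynomial.X : Polynomial F) • Y.toBlocks₂₁.map Polynomial.C)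
      (Z.map Polynomial.C + (Polynomial.X : Polynomial F) • Y.toBlocks₂₂.map Polynomial.C)).det
  have hg : ∀ t, g.eval t =
      (fromBlocks Y.toBlocks₁₁ Y.toBlocks₁₂ (t • Y.toBlocks₂₁) (Z + t • Y.toBlocks₂₂)).det := by
    intro t
    have h1 := RingHom.map_det (Polynomial.evalRingHom t)
      (fromBlocks (Y.toBlocks₁₁.map Polynomial.C) (Y.toBlocks₁₂.map Polynomial.C)
      ((Polynomial.X : Polynomial F) • Y.toBlocks₂₁.map Polynomial.C)
      (Z.map Polynomial.C + (Polynomial.X : Polynomial F) • Y.toBlocks₂₂.map Polynomial.C))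
    rw [Polynomial.coe_evalRingHom] at h1
    rw [h1]
    congr 1
    ext a a'
    rcases a with i | i <;> rcases a' with j | j
    · simp
    · simp
    · simp; ring
    · simp; ring
  have hpoly : (Polynomial.X : Polynomial F) ^ n * (Polynomial.C (T.det * T'.det * p) - g) = 0 := by
    apply Polynomial.funext
    intro t
    rw [Polynomial.eval_mul, Polynomial.eval_sub, Polynomial.eval_C, Polynomial.eval_pow,
      Polynomial.eval_X, Polynomial.eval_zero, hg, mul_sub, ← hfac, hΦd, hL]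
    ring
  have hX : (Polynomial.X : Polynomial F) ^ n ≠ 0 := pow_ne_zero _ Polynomial.X_ne_zero
  have h0 := (mul_eq_zero.mp hpoly).resolve_left hX
  have h1 := congrArg (Polynomial.eval 0) h0
  rw [Polynomial.eval_sub, Polynomial.eval_C, hg, Polynomial.eval_zero, sub_eq_zero, zero_smul, zero_smul,
    add_zero, det_fromBlocks_zero₂₁] at h1
  have hk : T.det * T'.det ≠ 0 := mul_ne_zero hTd hTd'
  field_simp
  linear_combination h1

end Pool.Agent.Helper14.Sym
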