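import Pool.Agent.Helper14.Sym.Comb

/-! Counting permutations mapping a set onto another one. -/

namespace Pool.Agent.Helper14.Sym

open Finset

set_option linter.unusedSectionVars false

theorem mem_iff_of_image {n : ℕ} {S T : Finset (Fin n)} {σ : Equiv.Perm (Fin n)}
    (h : S.image σ = T) (i : Fin n) : i ∈ S ↔ σ i ∈ T := by
  rw [← h, mem_image]
  constructor
  · intro hi; exact ⟨i, hi, rfl⟩
  · rintro ⟨j, hj, hji⟩
    rwa [← σ.injective hji]

theorem card_perms_le {n : ℕ} (S T : Finset (Fin n)) :
    (univ.filter (fun σ : Equiv.Perm (Fin n) => S.image σ = T)).card ≤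
      S.card.factorial * (n - S.card).factorial := by
  classical
  rcases (univ.filter (fun σ : Equiv.Perm (Fin n) => S.image σ = T)).eq_empty_or_nonempty with h | h
  · rw [h, card_empty]; exact Nat.zero_le _
  · obtain ⟨σ₀, hσ₀⟩ := h
    have h₀ : S.image σ₀ = T := (mem_filter.mp hσ₀).2
    let f : {σ : Equiv.Perm (Fin n) // S.image σ = T} →
        ({i // i ∈ S} ≃ {i // i ∈ T}) × ({i // i ∉ S} ≃ {i // i ∉ T}) :=
      fun σ => (σ.1.subtypeEquiv (fun i => mem_iff_of_image σ.2 i),
        σ.1.subtypeEquiv (fun i => not_congr (mem_iff_of_image σ.2 i)))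
    have hf : Function.Injective f := by
      intro σ τ hστ
      apply Subtype.ext
      apply Equiv.ext
      intro i
      by_cases hi : i ∈ S
      · have h1 := congrArg (fun p => ((p.1 ⟨i, hi⟩ : {i // i ∈ T}) : Fin n)) hστ
        exact h1
      · have h1 := congrArg (fun p => ((p.2 ⟨i, hi⟩ : {i // i ∉ T}) : Fin n)) hστ
        exact h1
    have hc := Fintype.card_le_of_injective f hf
    rw [Fintype.card_prod, Fintype.card_equiv (σ₀.subtypeEquiv (fun i => mem_iff_of_image h₀ i)),
      Fintype.card_equiv (σ₀.subtypeEquiv (fun i => not_congr (mem_iff_of_image h₀ i))),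
      Fintype.card_subtype_compl, Fintype.card_fin] at hc
    rw [Fintype.card_subtype] at hc
    simpa using hc

theorem le_choose : ∀ {n l : ℕ}, 1 ≤ l → l < n → n ≤ n.choose l
  | 0, _, _, h => absurd h (Nat.not_lt_zero _)
  | n + 1, l, h1, h2 => by
    obtain ⟨l, rfl⟩ : ∃ k, l = k + 1 := ⟨l - 1, by omega⟩
    rw [Nat.choose_succ_succ']
    rcases Nat.eq_zero_or_pos l with rfl | hl
    · simp
    · rcases Nat.lt_or_ge (l + 1) n with h | h
      · have a := le_choose (n := n) (l := l) hl (by omega)
        have b := le_choose (n := n) (l := l + 1) (by omega) h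
        omega
      · have hln : l + 1 = n := by omega
        subst hln
        have a := le_choose (n := l + 1) (l := l) hl (by omega)
        rw [Nat.choose_self]
        omega

theorem fact_mul_le {n l : ℕ} (h1 : 1 ≤ l) (h2 : l < n) :
    l.factorial * (n - l).factorial ≤ (n - 1).factorial := by
  have h := Nat.choose_mul_factorial_mul_factorial (n := n) (k := l) h2.le
  have hc := le_choose h1 h2
  have hn : n.factorial = n * (n - 1).factorial := by
    obtain ⟨k, rfl⟩ : ∃ k, n = k + 1 := ⟨n - 1, by omega⟩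
    rw [Nat.factorial_succ]; simp
  rw [hn] at h
  by_contra hcon
  push Not at hcon
  have : n * (n - 1).factorial < n.choose l * (l.factorial * (n - l).factorial) :=
    calc n * (n - 1).factorial < n * (l.factorial * (n - l).factorial) :=
          Nat.mul_lt_mul_of_pos_left hcon (by omega)
      _ ≤ _ := Nat.mul_le_mul_right _ hc
  rw [← mul_assoc, h] at this
  exact lt_irrefl _ this

variable {G : Type*} [CommGroup G] [DecidableEq G] {n : ℕ}

/-- The abstract combinatorial theorem. -/
theorem comb (hn : 0 < n) (d d' : Fin n → G)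
    (hd : ∀ S T S' T' : Finset (Fin n), S.card = T.card → S'.card = T'.card →
      (∏ i ∈ S, d i) * (∏ j ∈ T, d' j) = (∏ i ∈ S', d i) * (∏ j ∈ T', d' j) → S = S' ∧ T = T')
    (D : G → ℤ) (V : Finset G)
    (H : ∀ σ : Equiv.Perm (Fin n), ∃ s t : Fin n → G, (∀ i, t i * (d i * d' (σ i)) = s i) ∧
      (∀ v, D v = cnt s t univ v) ∧ ∀ i, t i ∈ V) :
    2 ^ n - 1 ≤ V.card ∨ ∃ a : Fin n → G, Function.Injective a ∧ ∀ i, D (a i) < 0 := by
  classical
  have hprod : ∀ (σ : Equiv.Perm (Fin n)) (S : Finset (Fin n)),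
      ∏ i ∈ S, (d i * d' (σ i)) = (∏ i ∈ S, d i) * ∏ j ∈ S.image σ, d' j := by
    intro σ S
    rw [prod_mul_distrib, prod_image (fun a _ b _ h => σ.injective h)]
  have hci : ∀ (σ : Equiv.Perm (Fin n)) (S : Finset (Fin n)), (S.image σ).card = S.card :=
    fun σ S => card_image_of_injective S σ.injective
  have h1 : ∀ (σ : Equiv.Perm (Fin n)) (S : Finset (Fin n)), S.Nonempty →
      ∏ i ∈ S, (d i * d' (σ i)) ≠ 1 := by
    intro σ S hS he
    rw [hprod] at he
    have := hd S (S.image σ) ∅ ∅ (hci σ S).symm rfl (by simpa using he)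
    rw [this.1] at hS
    exact absurd hS (by simp)
  -- the end point `b`
  obtain ⟨b, hb⟩ : ∃ b, 0 < D b := by
    obtain ⟨s, t, he, hD, _⟩ := H 1
    obtain ⟨b, hb⟩ := exists_pos he hn (h1 1)
    exact ⟨b, by rw [hD]; exact hb⟩
  by_cases hfull : ∃ a₀, ∀ v, D v = (if v = b then 1 else 0) - (if v = a₀ then 1 else 0)
  · left
    -- pairs
    let 𝒮 : Finset (Finset (Fin n) × Finset (Fin n)) :=
      univ.filter (fun p => p.1.card = p.2.card ∧ p.1.Nonempty ∧
        b * ((∏ i ∈ p.1, d i) * ∏ j ∈ p.2, d' j)⁻¹ ∈ V)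
    have hcov : ∀ l, 1 ≤ l → l ≤ n → n.choose l ≤ (𝒮.filter (fun p => p.1.card = l)).card := by
      intro l hl hln
      have hsub : (univ : Finset (Equiv.Perm (Fin n))) ⊆
          (𝒮.filter (fun p => p.1.card = l)).biUnion
            (fun p => univ.filter (fun σ : Equiv.Perm (Fin n) => p.1.image σ = p.2)) := by
        intro σ _
        obtain ⟨s, t, he, hD, ht⟩ := H σ
        have hb' : 0 < cnt s t univ b := by rw [← hD]; exact hb
        obtain ⟨S, a, hR, hS, _, hiff⟩ := trail he (h1 σ) hb'
        have hSu : S = univ := hiff.mpr (by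
          obtain ⟨a₀, ha₀⟩ := hfull
          exact ⟨a₀, fun v => by rw [← hD, ha₀]⟩)
        obtain ⟨S', a', hR', hc'⟩ := hR.sub l (by rw [hSu, card_univ, Fintype.card_fin]; exact hln)
        have hne : S'.Nonempty := by
          rw [← card_pos]; omega
        rw [mem_biUnion]
        refine ⟨(S', S'.image σ), ?_, by simp⟩
        rw [mem_filter, mem_filter]
        refine ⟨⟨mem_univ _, (hci σ S').symm, hne, ?_⟩, hc'⟩
        have hp := hR'.prod he
        rw [hprod] at hp
        simp only
        rw [← hp, mul_inv_cancel_right]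
        obtain ⟨i, hi⟩ := hR'.exists_eq hne
        rw [hi]; exact ht i
      have hcard := card_le_card hsub
      rw [card_univ, Fintype.card_perm, Fintype.card_fin] at hcard
      have h2 : ∀ p ∈ 𝒮.filter (fun p => p.1.card = l),
          (univ.filter (fun σ : Equiv.Perm (Fin n) => p.1.image σ = p.2)).card ≤
            l.factorial * (n - l).factorial := by
        intro p hp
        have := card_perms_le p.1 p.2
        rwa [(mem_filter.mp hp).2] at this
      have h3 := hcard.trans (card_biUnion_le_card_mul _ _ _ h2)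
      rw [← Nat.choose_mul_factorial_mul_factorial hln, mul_assoc] at h3
      exact Nat.le_of_mul_le_mul_right h3 (Nat.mul_pos (Nat.factorial_pos _) (Nat.factorial_pos _))
    have hsum : 2 ^ n - 1 ≤ 𝒮.card := by
      have e1 : 𝒮.card = ∑ l ∈ Icc 1 n, (𝒮.filter (fun p => p.1.card = l)).card := by
        apply card_eq_sum_card_fiberwise
        intro p hp
        have hp' := (mem_filter.mp hp).2
        rw [coe_Icc, Set.mem_Icc]
        refine ⟨card_pos.mpr hp'.2.1, ?_⟩
        simpa using card_le_univ p.1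
      rw [e1]
      have e2 : ∑ l ∈ Icc 1 n, n.choose l = 2 ^ n - 1 := by
        have h := Nat.sum_range_choose n
        rw [range_eq_Ico, ← sum_erase_add _ _ (mem_Ico.mpr ⟨le_rfl, Nat.succ_pos n⟩ : 0 ∈ Ico 0 (n + 1))] at h
        have e3 : (Ico 0 (n + 1)).erase 0 = Icc 1 n := by
          ext x; simp only [mem_erase, mem_Ico, mem_Icc]; omega
        rw [e3, Nat.choose_zero_right] at h
        omega
      rw [← e2]
      apply sum_le_sum
      intro l hl
      rw [mem_Icc] at hl
      exact hcov l hl.1 hl.2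
    refine hsum.trans ?_
    apply card_le_card_of_injOn (fun p => b * ((∏ i ∈ p.1, d i) * ∏ j ∈ p.2, d' j)⁻¹)
    · intro p hp
      exact (mem_filter.mp hp).2.2.2
    · intro p hp q hq hpq
      have hp' := (mem_filter.mp hp).2
      have hq' := (mem_filter.mp hq).2
      have := hd p.1 p.2 q.1 q.2 hp'.1 hq'.1 (inv_injective (mul_left_cancel hpq))
      exact Prod.ext this.1 this.2
  · right
    let N : Finset G := V.filter (fun a => D a < 0)
    let SA : G → Finset (Equiv.Perm (Fin n)) := fun a => univ.filter (fun σ =>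
      ∃ S : Finset (Fin n), S.Nonempty ∧ S ≠ univ ∧ a * ∏ i ∈ S, (d i * d' (σ i)) = b)
    have hSA : ∀ a, (SA a).card ≤ (n - 1).factorial := by
      intro a
      rcases (SA a).eq_empty_or_nonempty with h | h
      · rw [h, card_empty]; exact Nat.zero_le _
      · obtain ⟨σ₀, hσ₀⟩ := h
        obtain ⟨S₀, hS₀, hS₀', hp₀⟩ := (mem_filter.mp hσ₀).2
        have hsub : SA a ⊆ univ.filter (fun σ : Equiv.Perm (Fin n) => S₀.image σ = S₀.image σ₀) := by
          intro σ hσ
          obtain ⟨S, hS, hS', hp⟩ := (mem_filter.mp hσ).2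
          rw [mem_filter]
          refine ⟨mem_univ _, ?_⟩
          have heq : ∏ i ∈ S, (d i * d' (σ i)) = ∏ i ∈ S₀, (d i * d' (σ₀ i)) :=
            mul_left_cancel (hp.trans hp₀.symm)
          rw [hprod, hprod] at heq
          have := hd _ _ _ _ (hci σ S).symm (hci σ₀ S₀).symm heq
          rw [← this.2, this.1]
        refine (card_le_card hsub).trans ((card_perms_le _ _).trans (fact_mul_le ?_ ?_))
        · exact card_pos.mpr hS₀
        · have := (card_lt_univ_of_notMem (s := S₀) (x := ?_) ?_)
          · simpa using this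
          · exact (Classical.choose (not_forall.mp (fun h => hS₀' (eq_univ_iff_forall.mpr h))))
          · exact Classical.choose_spec (not_forall.mp (fun h => hS₀' (eq_univ_iff_forall.mpr h)))
    have hcov : (univ : Finset (Equiv.Perm (Fin n))) ⊆ N.biUnion SA := by
      intro σ _
      obtain ⟨s, t, he, hD, ht⟩ := H σ
      have hb' : 0 < cnt s t univ b := by rw [← hD]; exact hb
      obtain ⟨S, a, hR, hS, hneg, hiff⟩ := trail he (h1 σ) hb'
      have hSu : S ≠ univ := by
        intro h
        apply hfull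
        obtain ⟨a₀, ha₀⟩ := hiff.mp h
        exact ⟨a₀, fun v => by rw [hD, ha₀]⟩
      rw [mem_biUnion]
      refine ⟨a, ?_, ?_⟩
      · obtain ⟨i, hi⟩ := hR.exists_eq hS
        rw [mem_filter]
        exact ⟨by rw [hi]; exact ht i, by rw [hD]; exact hneg⟩
      · rw [mem_filter]
        exact ⟨mem_univ _, S, hS, hSu, hR.prod he⟩
    have hcard := (card_le_card hcov).trans
      (card_biUnion_le_card_mul _ _ _ (fun a _ => hSA a))
    rw [card_univ, Fintype.card_perm, Fintype.card_fin] at hcard
    have hn' : n.factorial = n * (n - 1).factorial := by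
      obtain ⟨k, rfl⟩ : ∃ k, n = k + 1 := ⟨n - 1, by omega⟩
      rw [Nat.factorial_succ]; simp
    rw [hn'] at hcard
    have hN : n ≤ N.card := Nat.le_of_mul_le_mul_right hcard (Nat.factorial_pos _)
    obtain ⟨N', hN', hN'c⟩ := exists_subset_card_eq hN
    let e := (N'.equivFinOfCardEq hN'c).symm
    refine ⟨fun i => (e i : G), fun i j h => e.injective (Subtype.ext h), fun i => ?_⟩
    exact (mem_filter.mp (hN' (e i).2)).2

end Pool.Agent.Helper14.Sym
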