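import Pool.Agent.Helper14.Sym.Count

/-! From a nonzero term of the determinant to a family of arcs. -/

namespace Pool.Agent.Helper14.Sym

open Finset

/-- excess of columns over rows of grade `v` -/
def exc {G : Type*} [DecidableEq G] {m : ℕ} (ρ γ : Fin m → G) (v : G) : ℤ :=
  ((univ.filter (fun c => γ c = v)).card : ℤ) - ((univ.filter (fun r => ρ r = v)).card : ℤ)

theorem data {G : Type*} [CommGroup G] [DecidableEq G] {m n : ℕ} (ρ γ : Fin m → G)
    (δ : Fin n → G) (π : Equiv.Perm (Fin m)) (φ : Fin m → Option (Fin n))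
    (hφ : ∀ i, ∃! c, φ c = some i) (h0 : ∀ c, φ c = none → ρ (π c) = γ c)
    (h1 : ∀ c i, φ c = some i → ρ (π c) * δ i = γ c) :
    ∃ s t : Fin n → G, (∀ i, t i * δ i = s i) ∧ (∀ v, exc ρ γ v = cnt s t univ v) ∧
      (∀ i, t i ∈ univ.image ρ) ∧ ∀ i, s i ∈ univ.image γ := by
  choose c hc hcu using hφ
  refine ⟨fun i => γ (c i), fun i => ρ (π (c i)), fun i => h1 _ _ (hc i), ?_,
    fun i => mem_image_of_mem _ (mem_univ _), fun i => mem_image_of_mem _ (mem_univ _)⟩
  intro v
  have hcu' : ∀ i j, φ j = some i → j = c i := fun i j hj => hcu i j hj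
  have e1 : ((univ.filter (fun r => ρ r = v)).card : ℤ) = ∑ j, if ρ (π j) = v then 1 else 0 := by
    rw [card_filter]
    push_cast
    exact (Equiv.sum_comp π (fun r => if ρ r = v then (1 : ℤ) else 0)).symm
  have e2 : ((univ.filter (fun j => γ j = v)).card : ℤ) = ∑ j, if γ j = v then 1 else 0 := by
    rw [card_filter]; push_cast; rfl
  have e3 : ∀ g : Fin m → ℤ, (∀ j, φ j = none → g j = 0) → ∑ j, g j = ∑ i, g (c i) := by
    intro g hg
    have a1 : ∀ j, g j = ∑ i, if φ j = some i then g j else 0 := by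
      intro j
      rcases hj : φ j with _ | i
      · simp [hg j hj]
      · simp
    have a2 : ∀ i, g (c i) = ∑ j, if φ j = some i then g j else 0 := by
      intro i
      rw [sum_eq_single (c i)]
      · rw [if_pos (hc i)]
      · intro j _ hj
        rw [if_neg]
        intro h; exact hj (hcu' i j h)
      · intro h; exact absurd (mem_univ _) h
    rw [sum_congr rfl (fun j _ => a1 j), sum_congr rfl (fun i _ => a2 i), sum_comm]
  unfold exc cnt
  rw [e1, e2, ← sum_sub_distrib, e3]
  · rw [sum_sub_distrib, card_filter, card_filter]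
    push_cast
    rfl
  · intro j hj
    rw [h0 j hj, sub_self]

end Pool.Agent.Helper14.Sym
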