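import Mathlib

/-! Reading off a nonzero term of a determinant. -/

namespace Pool.Agent.Helper14.Sym

open MvPolynomial Finset

theorem prod_monomial {F ι κ : Type*} [CommSemiring F] [DecidableEq κ] (s : Finset κ)
    (f : κ → ι →₀ ℕ) (a : κ → F) :
    ∏ c ∈ s, (monomial (f c) (a c) : MvPolynomial ι F) = monomial (∑ c ∈ s, f c) (∏ c ∈ s, a c) := by
  induction s using Finset.induction_on with
  | empty => simp
  | insert c s hc ih => rw [prod_insert hc, sum_insert hc, prod_insert hc, ih, monomial_mul]

/-- exponents and coefficient of the terms of an entry -/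
noncomputable def expo {n : ℕ} : Option (Fin n) → (Fin n →₀ ℕ)
  | none => 0
  | some i => Finsupp.single i 1

theorem expand {F : Type*} [Field F] {m n : ℕ} (N₀ : Matrix (Fin m) (Fin m) F)
    (N : Fin n → Matrix (Fin m) (Fin m) F) (u : F) (hu : u ≠ 0)
    (h : (Matrix.of fun r c => (C (N₀ r c) + ∑ i, X i * C (N i r c) : MvPolynomial (Fin n) F)).det =
      C u * ∏ i, X i) :
    ∃ (π : Equiv.Perm (Fin m)) (φ : Fin m → Option (Fin n)), (∀ i, ∃! c, φ c = some i) ∧
      ∀ c, (φ c = none → N₀ (π c) c ≠ 0) ∧ ∀ i, φ c = some i → N i (π c) c ≠ 0 := by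
  classical
  let e : Fin n →₀ ℕ := ∑ i, Finsupp.single i 1
  have he : ∀ i, e i = 1 := by
    intro i
    simp [e, Finsupp.finset_sum_apply, Finsupp.single_apply]
  have h1 : coeff e (C u * ∏ i, X i : MvPolynomial (Fin n) F) = u := by
    have : (∏ i : Fin n, X i : MvPolynomial (Fin n) F) = monomial e 1 := by
      have := prod_monomial (univ : Finset (Fin n)) (fun i => Finsupp.single i 1) (fun _ => (1 : F))
      rw [prod_const_one] at this
      exact this
    rw [this, coeff_C_mul, coeff_monomial, if_pos rfl, mul_one]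
  rw [← h, Matrix.det_apply', coeff_sum] at h1
  obtain ⟨π, -, hπ⟩ := exists_ne_zero_of_sum_ne_zero (h1 ▸ hu)
  have h2 : coeff e (∏ c, (C (N₀ (π c) c) + ∑ i, X i * C (N i (π c) c)) : MvPolynomial (Fin n) F) ≠ 0 := by
    intro h0
    apply hπ
    simp only [Matrix.of_apply]
    rcases Int.units_eq_one_or (Equiv.Perm.sign π) with hs | hs
    · rw [hs]; simpa using h0
    · rw [hs]; simpa using h0
  let a : Option (Fin n) → Fin m → F := fun o c => match o with
    | none => N₀ (π c) c
    | some i => N i (π c) c
  have h3 : ∀ c, (C (N₀ (π c) c) + ∑ i, X i * C (N i (π c) c) : MvPolynomial (Fin n) F) =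
      ∑ o : Option (Fin n), monomial (expo o) (a o c) := by
    intro c
    rw [Fintype.sum_option]
    congr 1
    refine sum_congr rfl (fun i _ => ?_)
    rw [X, C_apply, monomial_mul, one_mul, add_zero]
    rfl
  simp only [h3] at h2
  rw [prod_univ_sum, coeff_sum] at h2
  obtain ⟨φ, -, hφ⟩ := exists_ne_zero_of_sum_ne_zero h2
  rw [prod_monomial, coeff_monomial] at hφ
  have hexp : ∑ c, expo (φ c) = e := by
    by_contra hne
    rw [if_neg hne] at hφ
    exact hφ rfl
  rw [if_pos hexp] at hφ
  refine ⟨π, φ, ?_, ?_⟩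
  · intro i
    have h4 := congrArg (fun g : Fin n →₀ ℕ => g i) hexp
    simp only [he, Finsupp.finset_sum_apply] at h4
    have h5 : ∀ c, (expo (φ c)) i = if φ c = some i then 1 else 0 := by
      intro c
      rcases hc : φ c with _ | j
      · simp [expo]
      · simp only [expo, Finsupp.single_apply, Option.some.injEq]
    simp only [h5] at h4
    rw [← card_filter] at h4
    obtain ⟨c, hc⟩ := card_eq_one.mp h4
    refine ⟨c, ?_, ?_⟩
    · have : c ∈ univ.filter (fun c => φ c = some i) := by rw [hc]; simp
      exact (mem_filter.mp this).2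
    · intro c' hc'
      have : c' ∈ univ.filter (fun c => φ c = some i) := mem_filter.mpr ⟨mem_univ _, hc'⟩
      rw [hc] at this
      simpa using this
  · intro c
    have h6 := prod_ne_zero_iff.mp hφ c (mem_univ c)
    constructor
    · intro hc
      rw [hc] at h6
      exact h6
    · intro i hc
      rw [hc] at h6
      exact h6

end Pool.Agent.Helper14.Sym
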