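import Mathlib

/-! Graded bases for an equivariant family of matrices. -/

namespace Pool.Agent.Helper14.Sym

open Module

theorem graded_basis {F : Type*} [Field F] [IsAlgClosed F] {m : ℕ} (f : End F (Fin m → F))
    (hf : Function.Injective f) :
    ∃ (b : Basis (Fin m) F (Fin m → F)) (γ : Fin m → Fˣ),
      (∀ c, b c ∈ f.maxGenEigenspace (γ c : F)) ∧
      ∀ (β : F) (v : Fin m → F), v ∈ f.maxGenEigenspace β → ∀ r, b.repr v r ≠ 0 → (γ r : F) = β := by
  classical
  have hInt : DirectSum.IsInternal (fun μ : F => f.maxGenEigenspace μ) :=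
    DirectSum.isInternal_submodule_of_iSupIndep_of_iSup_eq_top f.independent_maxGenEigenspace
      (End.iSup_maxGenEigenspace_eq_top f)
  let v : ∀ μ : F, Basis (Fin (finrank F (f.maxGenEigenspace μ))) F (f.maxGenEigenspace μ) :=
    fun μ => finBasis F (f.maxGenEigenspace μ)
  let B := hInt.collectedBasis v
  have : Finite (Σ μ : F, Fin (finrank F (f.maxGenEigenspace μ))) := Module.Finite.finite_basis B
  have : Fintype (Σ μ : F, Fin (finrank F (f.maxGenEigenspace μ))) := Fintype.ofFinite _
  have hcard : Fintype.card (Σ μ : F, Fin (finrank F (f.maxGenEigenspace μ))) = m := by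
    rw [← finrank_eq_card_basis B, finrank_fin_fun]
  let e := Fintype.equivFinOfCardEq hcard
  let b := B.reindex e
  have hb : ∀ c, b c ∈ f.maxGenEigenspace (e.symm c).1 := by
    intro c
    have : b c = B (e.symm c) := Basis.reindex_apply _ _ _
    rw [this]
    exact hInt.collectedBasis_mem v _
  have hne : ∀ c, (e.symm c).1 ≠ 0 := by
    intro c h0
    have h1 := hb c
    rw [h0, End.mem_maxGenEigenspace] at h1
    obtain ⟨k, hk⟩ := h1
    rw [zero_smul, sub_zero] at hk
    have hinj : Function.Injective (f ^ k) := by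
      rw [Module.End.coe_pow]
      exact hf.iterate k
    have h2 : b c = 0 := hinj (by rw [hk, map_zero])
    exact b.ne_zero c h2
  refine ⟨b, fun c => Units.mk0 _ (hne c), hb, ?_⟩
  intro β w hw r hr
  by_contra hcon
  apply hr
  have : b.repr w r = B.repr w (e.symm r) := by
    rw [Basis.repr_reindex_apply]
  rw [this]
  have h3 := hInt.collectedBasis_repr_of_mem_ne v (i := β) (x := w) (j := (e.symm r).1)
    (a := (e.symm r).2) (fun h => hcon h.symm) hw
  exact h3

theorem map_maxGen {F V : Type*} [Field F] [AddCommGroup V] [Module F V] (f g : End F V)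
    (L : V →ₗ[F] V) (δ : Fˣ) (h : L ∘ₗ f = (δ : F) • (g ∘ₗ L)) (μ : F) (v : V)
    (hv : v ∈ f.maxGenEigenspace μ) : L v ∈ g.maxGenEigenspace (μ / δ) := by
  rw [End.mem_maxGenEigenspace] at hv ⊢
  obtain ⟨k, hk⟩ := hv
  refine ⟨k, ?_⟩
  have key : ∀ k : ℕ, ∀ w : V, L (((f - μ • (1 : End F V)) ^ k) w) =
      ((δ : F) ^ k) • (((g - (μ / δ) • (1 : End F V)) ^ k) (L w)) := by
    intro k
    induction k with
    | zero => intro w; simp
    | succ k ih =>
      intro w
      rw [pow_succ, Module.End.mul_apply, ih, pow_succ, pow_succ, Module.End.mul_apply, mul_smul]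
      congr 1
      rw [← map_smul]
      congr 1
      have h1 : L (f w) = (δ : F) • g (L w) := by
        have := LinearMap.congr_fun h w
        simpa using this
      simp only [LinearMap.sub_apply, LinearMap.smul_apply, Module.End.one_apply, map_sub, map_smul,
        h1, smul_sub, smul_smul]
      congr 2
      field_simp
  have := key k v
  rw [hk, map_zero] at this
  have hδ : (δ : F) ^ k ≠ 0 := pow_ne_zero _ δ.ne_zero
  exact (smul_eq_zero.mp this.symm).resolve_left hδ

theorem exists_graded {F : Type*} [Field F] [IsAlgClosed F] {m : ℕ} {ι : Type*}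
    (P R : Matrix (Fin m) (Fin m) F) (hP : IsUnit P.det) (hR : IsUnit R.det)
    (A₀ : Matrix (Fin m) (Fin m) F) (A : ι → Matrix (Fin m) (Fin m) F) (δ : ι → Fˣ)
    (h0 : P * A₀ * R = A₀) (h1 : ∀ p, P * A p * R = (δ p : F) • A p) :
    ∃ (U W : Matrix (Fin m) (Fin m) F) (ρ γ : Fin m → Fˣ), U.det ≠ 0 ∧ W.det ≠ 0 ∧
      (∀ r c, (U * A₀ * W) r c ≠ 0 → ρ r = γ c) ∧
      ∀ p r c, (U * A p * W) r c ≠ 0 → ρ r * δ p = γ c := by
  classical
  have hinj : ∀ X : Matrix (Fin m) (Fin m) F, IsUnit X.det →
      Function.Injective (Matrix.toLin' X) := by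
    intro X hX x y hxy
    rw [Matrix.toLin'_apply, Matrix.toLin'_apply] at hxy
    exact Matrix.mulVec_injective_iff_isUnit.mpr ((Matrix.isUnit_iff_isUnit_det _).mpr hX) hxy
  have hQ : IsUnit (P⁻¹).det := by
    rw [Matrix.isUnit_nonsing_inv_det_iff]; exact hP
  obtain ⟨b, γ, hb, -⟩ := graded_basis (Matrix.toLin' R) (hinj R hR)
  obtain ⟨b', ρ, -, hb'⟩ := graded_basis (Matrix.toLin' P⁻¹) (hinj _ hQ)
  let E := Pi.basisFun F (Fin m)
  let U := b'.toMatrix E
  let W := E.toMatrix b
  have hU : ∀ v : Fin m → F, U.mulVec v = b'.repr v := by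
    intro v
    have h1 := E.toMatrix_mulVec_repr b' v
    have h2 : ((E.repr v : Fin m →₀ F) : Fin m → F) = v := by
      funext i; simp [E]
    rw [h2] at h1
    exact h1
  have hent : ∀ (M : Matrix (Fin m) (Fin m) F) r c, (U * M * W) r c = b'.repr (M.mulVec (b c)) r := by
    intro M r c
    have e1 : (fun i => (M * W) i c) = M.mulVec (b c) := by
      funext i
      rw [Matrix.mul_apply]
      simp only [Matrix.mulVec, dotProduct]
      refine Finset.sum_congr rfl (fun j _ => ?_)
      congr 1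
    rw [Matrix.mul_assoc, ← hU, ← e1]
    rfl
  have hδ : ∀ (M : Matrix (Fin m) (Fin m) F) (d : Fˣ), P * M * R = (d : F) • M → ∀ r c,
      (U * M * W) r c ≠ 0 → ρ r * d = γ c := by
    intro M d hM r c hrc
    rw [hent] at hrc
    have hcomm : Matrix.toLin' M ∘ₗ Matrix.toLin' R = (d : F) • (Matrix.toLin' P⁻¹ ∘ₗ Matrix.toLin' M) := by
      rw [← Matrix.toLin'_mul, ← Matrix.toLin'_mul, ← map_smul]
      congr 1
      have : P⁻¹ * (P * M * R) = M * R := by
        rw [Matrix.mul_assoc, ← Matrix.mul_assoc, Matrix.nonsing_inv_mul _ hP, Matrix.one_mul]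
      rw [← this, hM, Matrix.mul_smul]
    have h2 := map_maxGen _ _ _ d hcomm _ _ (hb c)
    have h3 := hb' _ _ h2 r (by rw [Matrix.toLin'_apply]; exact hrc)
    apply Units.ext
    rw [Units.val_mul, h3]
    field_simp
  refine ⟨U, W, ρ, γ, ?_, ?_, ?_, fun p => hδ _ _ (h1 p)⟩
  · intro h
    have h2 := b'.toMatrix_mul_toMatrix_flip E
    have h3 := congrArg Matrix.det h2
    rw [Matrix.det_mul, Matrix.det_one] at h3
    rw [h, zero_mul] at h3
    exact zero_ne_one h3
  · intro h
    have h2 := b.toMatrix_mul_toMatrix_flip E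
    have h3 := congrArg Matrix.det h2
    rw [Matrix.det_mul, Matrix.det_one] at h3
    rw [h, mul_zero] at h3
    exact zero_ne_one h3
  · intro r c hrc
    have := hδ A₀ 1 (by rw [h0, Units.val_one, one_smul]) r c hrc
    rwa [mul_one] at this

end Pool.Agent.Helper14.Sym
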