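import Mathlib

/-! The permanent is not the determinant of a matrix of multiples of variables. -/

namespace Pool.Agent.Helper14.Sym

open MvPolynomial Finset

theorem nu_inj {n : ℕ} : Function.Injective (fun σ : Equiv.Perm (Fin n) =>
    (∑ i, Finsupp.single ((σ i, i) : Fin n × Fin n) 1 : Fin n × Fin n →₀ ℕ)) := by
  intro σ τ h
  apply Equiv.ext
  intro i
  have h1 := congrArg (fun g : Fin n × Fin n →₀ ℕ => g (σ i, i)) h
  simp only [Finsupp.finsetSum_apply, Finsupp.single_apply, Prod.mk.injEq] at h1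
  have e1 : ∑ x : Fin n, (if σ x = σ i ∧ x = i then 1 else 0) = 1 := by
    rw [sum_eq_single i]
    · simp
    · intro j _ hj; simp [hj]
    · intro hh; exact absurd (mem_univ _) hh
  rw [e1] at h1
  obtain ⟨x, -, hx⟩ := exists_ne_zero_of_sum_ne_zero (h1 ▸ one_ne_zero)
  by_contra hne
  apply hx
  rw [if_neg]
  rintro ⟨ha, hb⟩
  subst hb
  exact hne ha.symm

theorem prod_monomial' {F ι κ : Type*} [CommSemiring F] [DecidableEq κ] (s : Finset κ)
    (f : κ → ι →₀ ℕ) (a : κ → F) :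
    ∏ c ∈ s, (monomial (f c) (a c) : MvPolynomial ι F) = monomial (∑ c ∈ s, f c) (∏ c ∈ s, a c) := by
  induction s using Finset.induction_on with
  | empty => simp
  | insert c s hc ih => rw [prod_insert hc, sum_insert hc, prod_insert hc, ih, monomial_mul]

theorem three {F : Type*} [Field F] (h2 : (2 : F) ≠ 0) {n : ℕ} (hn : 3 ≤ n)
    (c : Fin n → Fin n → F) (κ : F)
    (h : ∀ τ : Equiv.Perm (Fin n), κ * (((Equiv.Perm.sign τ : ℤˣ) : ℤ) : F) * ∏ a, c (τ a) a = 1) :
    False := by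
  classical
  let i0 : Fin n := ⟨0, by omega⟩
  let i1 : Fin n := ⟨1, by omega⟩
  let i2 : Fin n := ⟨2, by omega⟩
  have h01 : i0 ≠ i1 := by simp [i0, i1]
  have h02 : i0 ≠ i2 := by simp [i0, i2]
  have h12 : i1 ≠ i2 := by simp [i1, i2]
  let P : F := ∏ a ∈ ((univ.erase i0).erase i1).erase i2, c a a
  have key : ∀ τ : Equiv.Perm (Fin n), (∀ a, a ≠ i0 → a ≠ i1 → a ≠ i2 → τ a = a) →
      ∏ a, c (τ a) a = c (τ i0) i0 * (c (τ i1) i1 * (c (τ i2) i2 * P)) := by
    intro τ hτ
    rw [← mul_prod_erase univ _ (mem_univ i0)]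
    congr 1
    rw [← mul_prod_erase (univ.erase i0) _ (mem_erase.mpr ⟨h01.symm, mem_univ i1⟩)]
    congr 1
    rw [← mul_prod_erase ((univ.erase i0).erase i1) _
      (mem_erase.mpr ⟨h12.symm, mem_erase.mpr ⟨h02.symm, mem_univ i2⟩⟩)]
    congr 1
    refine prod_congr rfl (fun a ha => ?_)
    simp only [mem_erase] at ha
    rw [hτ a ha.2.2.1 ha.2.1 ha.1]
  have a1 := h 1
  have a2 := h (Equiv.swap i0 i1 * Equiv.swap i1 i2)
  have a3 := h (Equiv.swap i1 i2 * Equiv.swap i0 i1)
  have b1 := h (Equiv.swap i0 i1)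
  have b2 := h (Equiv.swap i1 i2)
  have b3 := h (Equiv.swap i0 i2)
  have fix : ∀ x y a : Fin n, a ≠ x → a ≠ y → Equiv.swap x y a = a :=
    fun x y a hx hy => Equiv.swap_apply_of_ne_of_ne hx hy
  rw [key _ (fun a _ _ _ => rfl)] at a1
  rw [key _ (fun a p q r => by rw [Equiv.Perm.mul_apply, fix _ _ a q r, fix _ _ a p q])] at a2
  rw [key _ (fun a p q r => by rw [Equiv.Perm.mul_apply, fix _ _ a p q, fix _ _ a q r])] at a3
  rw [key _ (fun a p q r => fix _ _ a p q)] at b1
  rw [key _ (fun a p q r => fix _ _ a q r)] at b2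
  rw [key _ (fun a p q r => fix _ _ a p r)] at b3
  rw [Equiv.Perm.sign_mul, Equiv.Perm.sign_swap h01, Equiv.Perm.sign_swap h12] at a2 a3
  rw [Equiv.Perm.sign_swap h01] at b1
  rw [Equiv.Perm.sign_swap h12] at b2
  rw [Equiv.Perm.sign_swap h02] at b3
  rw [Equiv.Perm.sign_one] at a1
  simp only [Equiv.Perm.mul_apply, Equiv.Perm.one_apply, Equiv.swap_apply_left,
    Equiv.swap_apply_right, fix i0 i1 i2 h02.symm h12.symm, fix i1 i2 i0 h01 h02,
    fix i0 i2 i1 h01.symm h12] at a1 a2 a3 b1 b2 b3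
  push_cast at a1 a2 a3 b1 b2 b3
  have e1 : (κ * P) ^ 3 * (c i0 i0 * c i1 i1 * c i2 i2 * (c i1 i0 * c i2 i1 * c i0 i2) *
      (c i2 i0 * c i0 i1 * c i1 i2)) = 1 := by
    have := congrArg₂ (· * ·) (congrArg₂ (· * ·) a1 a2) a3
    linear_combination this
  have e2 : (κ * P) ^ 3 * (c i0 i0 * c i1 i1 * c i2 i2 * (c i1 i0 * c i2 i1 * c i0 i2) *
      (c i2 i0 * c i0 i1 * c i1 i2)) = -1 := by
    have := congrArg₂ (· * ·) (congrArg₂ (· * ·) b1 b2) b3
    linear_combination -this
  rw [e1] at e2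
  apply h2
  linear_combination e2

theorem mono {F : Type*} [Field F] (h2 : (2 : F) ≠ 0) {n : ℕ} (hn : 3 ≤ n)
    (c : Fin n → Fin n → F) (cell : Fin n → Fin n → Fin n × Fin n) (κ : F)
    (h : (C κ : MvPolynomial (Fin n × Fin n) F) *
        (Matrix.of fun a b => C (c a b) * X (cell a b)).det =
      (Matrix.of fun i j => (X (i, j) : MvPolynomial (Fin n × Fin n) F)).permanent) : False := by
  classical
  let ν : Equiv.Perm (Fin n) → (Fin n × Fin n →₀ ℕ) := fun σ =>
    ∑ i, Finsupp.single ((σ i, i) : Fin n × Fin n) 1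
  let μ : Equiv.Perm (Fin n) → (Fin n × Fin n →₀ ℕ) := fun τ =>
    ∑ i, Finsupp.single (cell (τ i) i) 1
  have hν : Function.Injective ν := nu_inj
  have hperm : (Matrix.of fun i j => (X (i, j) : MvPolynomial (Fin n × Fin n) F)).permanent =
      ∑ σ, monomial (ν σ) (1 : F) := by
    rw [Matrix.permanent]
    refine sum_congr rfl (fun σ _ => ?_)
    have := prod_monomial' (univ : Finset (Fin n)) (fun i => Finsupp.single ((σ i, i) : Fin n × Fin n) 1)
      (fun _ => (1 : F))
    rw [prod_const_one] at this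
    exact this
  have hdet : (C κ : MvPolynomial (Fin n × Fin n) F) *
      (Matrix.of fun a b => C (c a b) * X (cell a b)).det =
      ∑ τ : Equiv.Perm (Fin n), monomial (μ τ)
        (κ * (((Equiv.Perm.sign τ : ℤˣ) : ℤ) : F) * ∏ a, c (τ a) a) := by
    rw [Matrix.det_apply', mul_sum]
    refine sum_congr rfl (fun τ _ => ?_)
    simp only [Matrix.of_apply]
    have h3 : ∏ i, (C (c (τ i) i) * X (cell (τ i) i) : MvPolynomial (Fin n × Fin n) F) =
        monomial (μ τ) (∏ a, c (τ a) a) := by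
      rw [← prod_monomial' (univ : Finset (Fin n)) (fun i => Finsupp.single (cell (τ i) i) 1)
        (fun a => c (τ a) a)]
      refine prod_congr rfl (fun i _ => ?_)
      rw [X, C_mul_monomial, mul_one]
    have h4 : (((Equiv.Perm.sign τ : ℤˣ) : ℤ) : MvPolynomial (Fin n × Fin n) F) =
        C (((Equiv.Perm.sign τ : ℤˣ) : ℤ) : F) := by
      rw [map_intCast]
    rw [h3, h4, ← mul_assoc, ← C_mul, C_mul_monomial]
  rw [hperm, hdet] at h
  have hex : ∀ σ : Equiv.Perm (Fin n), ∃ τ, μ τ = ν σ := by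
    intro σ
    have h5 := congrArg (coeff (ν σ)) h
    rw [coeff_sum, coeff_sum] at h5
    simp only [coeff_monomial] at h5
    have h6 : ∑ x : Equiv.Perm (Fin n), (if ν x = ν σ then (1 : F) else 0) = 1 := by
      rw [sum_eq_single σ]
      · simp
      · intro x _ hx
        rw [if_neg]
        intro hh; exact hx (hν hh)
      · intro hh; exact absurd (mem_univ _) hh
    rw [h6] at h5
    obtain ⟨τ, -, hτ⟩ := exists_ne_zero_of_sum_ne_zero (h5 ▸ one_ne_zero)
    refine ⟨τ, ?_⟩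
    by_contra hne
    apply hτ
    rw [if_neg hne]
  choose f hf using hex
  have hfi : Function.Injective f := by
    intro σ σ' he
    apply hν
    rw [← hf, ← hf, he]
  have hfb : Function.Bijective f := Finite.injective_iff_bijective.mp hfi
  have hμ : Function.Injective μ := by
    intro τ τ' he
    obtain ⟨σ, rfl⟩ := hfb.2 τ
    obtain ⟨σ', rfl⟩ := hfb.2 τ'
    rw [hf, hf] at he
    rw [hν he]
  refine three h2 hn c κ (fun τ => ?_)
  obtain ⟨σ, rfl⟩ := hfb.2 τ
  have h5 := congrArg (coeff (ν σ)) h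
  rw [coeff_sum, coeff_sum] at h5
  simp only [coeff_monomial] at h5
  rw [sum_eq_single (f σ), sum_eq_single σ] at h5
  · rw [if_pos (hf σ), if_pos rfl] at h5
    exact h5
  · intro x _ hx
    rw [if_neg]
    intro hh; exact hx (hν hh)
  · intro hh; exact absurd (mem_univ _) hh
  · intro x _ hx
    rw [if_neg]
    intro hh
    rw [← hf] at hh
    exact hx (hμ hh)
  · intro hh; exact absurd (mem_univ _) hh

end Pool.Agent.Helper14.Sym
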