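import Pool.Agent.Helper14.Sym.Ker
import Pool.Agent.Helper14.Sym.Grade
import Pool.Agent.Helper14.Sym.Expand
import Pool.Agent.Helper14.Sym.Compress
import Pool.Agent.Helper14.Sym.Mono

/-! The main theorem over an algebraically closed field. -/

namespace Pool.Agent.Helper14.Sym

open Finset Matrix Module

theorem perm_supp {F : Type*} [Field F] {n : ℕ} (σ : Equiv.Perm (Fin n)) (t : Fin n → F) :
    (Matrix.of fun i j => if j = σ i then t i else 0).permanent = ∏ i, t i := by
  classical
  rw [permanent, sum_eq_single σ⁻¹]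
  · rw [← Equiv.prod_comp σ⁻¹ t]
    refine prod_congr rfl (fun i _ => ?_)
    rw [of_apply, if_pos]
    simp
  · intro τ _ hτ
    have : ∃ i, i ≠ σ (τ i) := by
      by_contra hcon
      push Not at hcon
      apply hτ
      apply Equiv.ext
      intro i
      rw [Equiv.Perm.eq_inv_iff_eq]
      exact (hcon i).symm
    obtain ⟨i, hi⟩ := this
    apply prod_eq_zero (mem_univ i)
    rw [of_apply, if_neg hi]
  · intro h; exact absurd (mem_univ _) h

theorem indep_of_supp {F G : Type*} [Field F] {m n : ℕ} (γ : Fin m → G) (b : Fin n → G)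
    (hb : Function.Injective b) (η : Fin n → Fin m → F) (h0 : ∀ j, η j ≠ 0)
    (hs : ∀ j c, η j c ≠ 0 → γ c = b j) : LinearIndependent F η := by
  classical
  rw [linearIndependent_iff']
  intro s g hg i hi
  obtain ⟨c, hc⟩ : ∃ c, η i c ≠ 0 := by
    by_contra hcon
    push Not at hcon
    exact h0 i (funext hcon)
  have h1 := congrFun hg c
  rw [Finset.sum_apply, sum_eq_single i, Pi.smul_apply, smul_eq_mul, Pi.zero_apply] at h1
  · exact (mul_eq_zero.mp h1).resolve_right hc
  · intro j _ hji
    rw [Pi.smul_apply, smul_eq_mul]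
    have : η j c = 0 := by
      by_contra hne
      exact hji (hb ((hs j c hne).symm.trans (hs i c hc)))
    rw [this, mul_zero]
  · intro h; exact absurd hi h

theorem exc_swap {G : Type*} [DecidableEq G] {m : ℕ} (ρ γ : Fin m → G) (v : G) :
    exc γ ρ v = - exc ρ γ v := by
  unfold exc; ring

theorem main {F : Type*} [Field F] [IsAlgClosed F] (h2 : (2 : F) ≠ 0) {n m : ℕ} (hn : 3 ≤ n)
    (A₀ : Matrix (Fin m) (Fin m) F) (A : Fin n × Fin n → Matrix (Fin m) (Fin m) F) (c : F)
    (hc : c ≠ 0)
    (hdet : ∀ x : Fin n × Fin n → F, (A₀ + ∑ p, x p • A p).det =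
      c * (Matrix.of fun i j => x (i, j)).permanent)
    (d d' : Fin n → Fˣ)
    (hd : ∀ S T S' T' : Finset (Fin n), S.card = T.card → S'.card = T'.card →
      (∏ i ∈ S, d i) * (∏ j ∈ T, d' j) = (∏ i ∈ S', d i) * (∏ j ∈ T', d' j) → S = S' ∧ T = T')
    (P R : Matrix (Fin m) (Fin m) F) (hP : IsUnit P.det) (hR : IsUnit R.det)
    (h0 : P * A₀ * R = A₀) (h1 : ∀ p, P * A p * R = ((d p.1 * d' p.2 : Fˣ) : F) • A p) :
    2 ^ n - 1 ≤ m := by
  classical
  have hinf : Infinite F := IsAlgClosed.instInfinite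
  obtain ⟨U, W, ρ, γ, hU, hW, hg0, hg⟩ := exists_graded P R hP hR A₀ A
    (fun p => d p.1 * d' p.2) h0 h1
  set N₀ := U * A₀ * W with hN₀
  set N : Fin n × Fin n → Matrix (Fin m) (Fin m) F := fun p => U * A p * W with hNdef
  set u := U.det * W.det * c with hu
  have hu0 : u ≠ 0 := mul_ne_zero (mul_ne_zero hU hW) hc
  have hN : ∀ x : Fin n × Fin n → F, (N₀ + ∑ p, x p • N p).det =
      u * (Matrix.of fun i j => x (i, j)).permanent := by
    intro x
    have : N₀ + ∑ p, x p • N p = U * (A₀ + ∑ p, x p • A p) * W := by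
      rw [Matrix.mul_add, Matrix.add_mul, Matrix.mul_sum, Matrix.sum_mul]
      congr 1
      refine sum_congr rfl (fun p _ => ?_)
      rw [Matrix.mul_smul, Matrix.smul_mul]
    rw [this, det_mul, det_mul, hdet, hu]
    ring
  -- the arcs
  have harc : ∀ σ : Equiv.Perm (Fin n), ∃ s t : Fin n → Fˣ, (∀ i, t i * (d i * d' (σ i)) = s i) ∧
      (∀ v, exc ρ γ v = cnt s t univ v) ∧ (∀ i, t i ∈ univ.image ρ) ∧ ∀ i, s i ∈ univ.image γ := by
    intro σ
    have hpoly : (Matrix.of fun r s => (MvPolynomial.C (N₀ r s) +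
        ∑ i, MvPolynomial.X i * MvPolynomial.C (N (i, σ i) r s) : MvPolynomial (Fin n) F)).det =
        MvPolynomial.C u * ∏ i, MvPolynomial.X i := by
      apply MvPolynomial.funext
      intro t
      rw [map_mul, map_prod, MvPolynomial.eval_C, RingHom.map_det]
      simp only [MvPolynomial.eval_X]
      have e1 := hN (fun p => if p.2 = σ p.1 then t p.1 else 0)
      rw [perm_supp σ t] at e1
      rw [← e1]
      congr 1
      ext r s
      rw [RingHom.mapMatrix_apply, map_apply, of_apply, Matrix.add_apply, Matrix.sum_apply,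
        map_add, map_sum, MvPolynomial.eval_C, Fintype.sum_prod_type]
      congr 1
      refine sum_congr rfl (fun i _ => ?_)
      rw [map_mul, MvPolynomial.eval_C, MvPolynomial.eval_X, sum_eq_single (σ i)]
      · simp
      · intro j _ hj; simp [hj]
      · intro h; exact absurd (mem_univ _) h
    obtain ⟨π, φ, hφ, hne⟩ := expand N₀ (fun i => N (i, σ i)) u hu0 hpoly
    exact data ρ γ (fun i => d i * d' (σ i)) π φ hφ (fun c hc => hg0 _ _ ((hne c).1 hc))
      (fun c i hc => hg (i, σ i) _ _ ((hne c).2 i hc))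
  have hcard : ∀ g : Fin m → Fˣ, (univ.image g).card ≤ m := by
    intro g
    have := card_image_le (s := (univ : Finset (Fin m))) (f := g)
    simpa using this
  rcases comb (by omega) d d' hd (exc ρ γ) (univ.image ρ) (fun σ => by
    obtain ⟨s, t, a1, a2, a3, -⟩ := harc σ
    exact ⟨s, t, a1, a2, a3⟩) with hA | ⟨a, ha, ha'⟩
  · exact hA.trans (hcard ρ)
  rcases comb (by omega) d d' hd (fun v => - exc ρ γ v⁻¹) (univ.image (fun c => (γ c)⁻¹)) (fun σ => by
    obtain ⟨s, t, a1, a2, -, a4⟩ := harc σ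
    refine ⟨fun i => (t i)⁻¹, fun i => (s i)⁻¹, ?_, ?_, ?_⟩
    · intro i
      have h := a1 i
      show (s i)⁻¹ * (d i * d' (σ i)) = (t i)⁻¹
      rw [← h]
      generalize d i * d' (σ i) = w
      rw [mul_inv, mul_assoc, inv_mul_cancel, mul_one]
    · intro v
      rw [a2]
      unfold cnt
      simp only [inv_eq_iff_eq_inv]
      ring
    · intro i
      have := a4 i
      rw [mem_image] at this ⊢
      obtain ⟨c, hc, hc'⟩ := this
      exact ⟨c, hc, by rw [hc']⟩) with hB | ⟨b', hb, hb'⟩
  · exact hB.trans (hcard _)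
  exfalso
  set b : Fin n → Fˣ := fun j => (b' j)⁻¹ with hbdef
  have hbi : Function.Injective b := inv_injective.comp hb
  have hbp : ∀ j, 0 < exc ρ γ (b j) := by
    intro j
    have := hb' j
    simp only [hbdef]
    linarith
  have hex1 : ∀ j, ∃ η : Fin m → F, η ≠ 0 ∧ (∀ c, η c ≠ 0 → γ c = b j) ∧ N₀ *ᵥ η = 0 :=
    fun j => ker_vec N₀ ρ γ hg0 (b j) (hbp j)
  have hex2 : ∀ i, ∃ ξ : Fin m → F, ξ ≠ 0 ∧ (∀ c, ξ c ≠ 0 → ρ c = a i) ∧ N₀ᵀ *ᵥ ξ = 0 := by
    intro i
    refine ker_vec N₀ᵀ γ ρ (fun r c h => (hg0 c r h).symm) (a i) ?_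
    rw [exc_swap]
    have := ha' i
    linarith
  choose η hη0 hηs hηk using hex1
  choose ξ hξ0 hξs hξk using hex2
  have hξk' : ∀ i, ξ i ᵥ* N₀ = 0 := by
    intro i
    rw [← mulVec_transpose]; exact hξk i
  obtain ⟨κ, hκ⟩ := compress N₀ ξ η (indep_of_supp ρ a ha ξ hξ0 hξs)
    (indep_of_supp γ b hbi η hη0 hηs) hξk' hηk
  let lam : Fin n × Fin n → Fin n → Fin n → F := fun p i j => ξ i ⬝ᵥ (N p *ᵥ η j)
  have hlam : ∀ x : Fin n × Fin n → F, u * (Matrix.of fun i j => x (i, j)).permanent =
      κ * (Matrix.of fun i j => ∑ p, x p * lam p i j).det := by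
    intro x
    have h3 := hκ (∑ p, x p • N p) (u * (Matrix.of fun i j => x (i, j)).permanent) (by
      intro t
      have h4 := hN (fun p => t * x p)
      have e1 : ∑ p, (t * x p) • N p = t • ∑ p, x p • N p := by
        rw [smul_sum]
        refine sum_congr rfl (fun p _ => ?_)
        rw [smul_smul]
      rw [e1] at h4
      rw [h4]
      have e2 : (Matrix.of fun i j => t * x (i, j)).permanent =
          t ^ n * (Matrix.of fun i j => x (i, j)).permanent := by
        rw [permanent, permanent, mul_sum]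
        refine sum_congr rfl (fun τ _ => ?_)
        simp only [of_apply]
        rw [prod_mul_distrib, prod_const, card_univ, Fintype.card_fin]
      rw [e2]; ring)
    rw [h3]
    congr 2
    ext i j
    rw [of_apply, of_apply]
    simp only [lam]
    rw [sum_mulVec, dotProduct_sum]
    refine sum_congr rfl (fun p _ => ?_)
    rw [smul_mulVec, dotProduct_smul, smul_eq_mul]
  have hlamg : ∀ p i j, lam p i j ≠ 0 → a i * (d p.1 * d' p.2) = b j := by
    intro p i j hp
    simp only [lam, dotProduct, mulVec] at hp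
    obtain ⟨r, -, hr⟩ := exists_ne_zero_of_sum_ne_zero hp
    obtain ⟨c', -, hc'⟩ := exists_ne_zero_of_sum_ne_zero (right_ne_zero_of_mul hr)
    rw [← hξs i r (left_ne_zero_of_mul hr), ← hηs j c' (right_ne_zero_of_mul hc')]
    exact hg p r c' (left_ne_zero_of_mul hc')
  have huniq : ∀ p q i j, lam p i j ≠ 0 → lam q i j ≠ 0 → p = q := by
    intro p q i j hp hq
    have e := mul_left_cancel ((hlamg p i j hp).trans (hlamg q i j hq).symm)
    have := hd {p.1} {p.2} {q.1} {q.2} rfl rfl (by simpa using e)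
    exact Prod.ext (singleton_injective this.1) (singleton_injective this.2)
  let z : Fin n := ⟨0, by omega⟩
  let cell : Fin n → Fin n → Fin n × Fin n := fun i j =>
    if h : ∃ p, lam p i j ≠ 0 then h.choose else (z, z)
  have hcell : ∀ (x : Fin n × Fin n → F) i j, ∑ p, x p * lam p i j =
      lam (cell i j) i j * x (cell i j) := by
    intro x i j
    rw [sum_eq_single (cell i j)]
    · ring
    · intro p _ hp
      by_cases hp0 : lam p i j = 0
      · rw [hp0, mul_zero]
      · exfalso
        apply hp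
        have hex : ∃ p, lam p i j ≠ 0 := ⟨p, hp0⟩
        have : cell i j = hex.choose := by
          simp only [cell]
          rw [dif_pos hex]
        rw [this]
        exact huniq p _ i j hp0 hex.choose_spec
    · intro h; exact absurd (mem_univ _) h
  refine mono h2 hn (fun i j => lam (cell i j) i j) cell (κ / u) ?_
  apply MvPolynomial.funext
  intro x
  rw [map_mul, MvPolynomial.eval_C, RingHom.map_det]
  have e1 : (MvPolynomial.eval x).mapMatrix (Matrix.of fun a b =>
      (MvPolynomial.C (lam (cell a b) a b) * MvPolynomial.X (cell a b) :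
        MvPolynomial (Fin n × Fin n) F)) = Matrix.of fun i j => ∑ p, x p * lam p i j := by
    ext i j
    rw [RingHom.mapMatrix_apply, map_apply, of_apply, of_apply, hcell, map_mul, MvPolynomial.eval_C,
      MvPolynomial.eval_X]
  rw [e1]
  have e2 : MvPolynomial.eval x (Matrix.of fun i j =>
      (MvPolynomial.X (i, j) : MvPolynomial (Fin n × Fin n) F)).permanent =
      (Matrix.of fun i j => x (i, j)).permanent := by
    rw [permanent, permanent, map_sum]
    refine sum_congr rfl (fun τ _ => ?_)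
    rw [map_prod]
    refine prod_congr rfl (fun i _ => ?_)
    simp
  rw [e2]
  have e3 := hlam x
  field_simp
  rw [← e3]

end Pool.Agent.Helper14.Sym
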