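import Pool.Agent.Helper14.Sym.Data

/-! Homogeneous kernel vectors. -/

namespace Pool.Agent.Helper14.Sym

open Finset Matrix Module

theorem ker_vec {F G : Type*} [Field F] [DecidableEq G] {m : ℕ} (N : Matrix (Fin m) (Fin m) F)
    (ρ γ : Fin m → G) (hN : ∀ r c, N r c ≠ 0 → ρ r = γ c) (b : G) (hb : 0 < exc ρ γ b) :
    ∃ η : Fin m → F, η ≠ 0 ∧ (∀ c, η c ≠ 0 → γ c = b) ∧ N *ᵥ η = 0 := by
  classical
  let B : Matrix {r // ρ r = b} {c // γ c = b} F := fun r c => N r.1 c.1
  have hlt : finrank F ({r // ρ r = b} → F) < finrank F ({c // γ c = b} → F) := by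
    rw [finrank_fintype_fun_eq_card, finrank_fintype_fun_eq_card, Fintype.card_subtype,
      Fintype.card_subtype]
    unfold exc at hb
    omega
  have hk := LinearMap.ker_ne_bot_of_finrank_lt (f := Matrix.toLin' B) hlt
  obtain ⟨x, hx, hx0⟩ := Submodule.exists_mem_ne_zero_of_ne_bot hk
  rw [LinearMap.mem_ker, Matrix.toLin'_apply] at hx
  let η : Fin m → F := fun c => if h : γ c = b then x ⟨c, h⟩ else 0
  refine ⟨η, ?_, ?_, ?_⟩
  · intro h0
    apply hx0
    funext c
    have := congrFun h0 c.1
    simp only [η, dif_pos c.2, Pi.zero_apply] at this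
    exact this
  · intro c hc
    by_contra hne
    apply hc
    simp only [η]
    rw [dif_neg hne]
  · funext r
    rw [Pi.zero_apply, mulVec, dotProduct]
    by_cases hr : ρ r = b
    · have h1 := congrFun hx ⟨r, hr⟩
      rw [mulVec, dotProduct, Pi.zero_apply] at h1
      rw [← h1]
      have e1 : ∑ c, N r c * η c = ∑ c ∈ univ.filter (fun c => γ c = b), N r c * η c := by
        symm
        apply sum_subset (filter_subset _ _)
        intro c _ hc
        have : γ c ≠ b := fun h => hc (mem_filter.mpr ⟨mem_univ _, h⟩)
        simp only [η]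
        rw [dif_neg this, mul_zero]
      rw [e1, sum_subtype (univ.filter (fun c => γ c = b)) (p := fun c => γ c = b)
        (fun c => by simp) (fun c => N r c * η c)]
      refine sum_congr rfl (fun c _ => ?_)
      simp only [η]
      rw [dif_pos c.2]
    · apply sum_eq_zero
      intro c _
      by_cases hc : γ c = b
      · have : N r c = 0 := by
          by_contra hne
          exact hr ((hN r c hne).trans hc)
        rw [this, zero_mul]
      · simp only [η]
        rw [dif_neg hc, mul_zero]

end Pool.Agent.Helper14.Sym
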