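import Mathlib

/-! Restricting a polynomial to a set of variables; families of monomials. -/

namespace Pool.Agent.Helper14.Sym

open MvPolynomial Finset

theorem coeff_restrict {F ι : Type*} [CommSemiring F] [DecidableEq ι] (H : Finset ι)
    (p : MvPolynomial ι F) (μ : ι →₀ ℕ) :
    coeff μ (aeval (fun e => if e ∈ H then (X e : MvPolynomial ι F) else 0) p) =
      if μ.support ⊆ H then coeff μ p else 0 := by
  classical
  have hmono : ∀ (ν : ι →₀ ℕ) (a : F),
      aeval (fun e => if e ∈ H then (X e : MvPolynomial ι F) else 0) (monomial ν a) =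
        if ν.support ⊆ H then monomial ν a else 0 := by
    intro ν a
    rw [aeval_monomial]
    by_cases h : ν.support ⊆ H
    · rw [if_pos h, monomial_eq (s := ν) (a := a)]
      congr 1
      refine Finsupp.prod_congr (fun e he => ?_)
      rw [if_pos (h he)]
    · rw [if_neg h]
      obtain ⟨e, he, heH⟩ := not_subset.mp h
      have : (ν.prod fun i k => (if i ∈ H then (X i : MvPolynomial ι F) else 0) ^ k) = 0 := by
        apply prod_eq_zero he
        show (if e ∈ H then (X e : MvPolynomial ι F) else 0) ^ (ν e) = 0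
        rw [if_neg heH, zero_pow (Finsupp.mem_support_iff.mp he)]
      rw [this, mul_zero]
  conv_lhs => rw [p.as_sum, map_sum, coeff_sum]
  simp only [hmono]
  by_cases h : μ.support ⊆ H
  · rw [if_pos h, sum_eq_single μ]
    · rw [if_pos h, coeff_monomial, if_pos rfl]
    · intro ν _ hν
      split_ifs
      · rw [coeff_monomial, if_neg hν]
      · simp
    · intro hμ
      rw [if_pos h, coeff_monomial, if_pos rfl]
      exact notMem_support_iff.mp hμ
  · rw [if_neg h]
    apply sum_eq_zero
    intro ν _
    split_ifs with hν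
    · rw [coeff_monomial, if_neg]
      intro he; rw [he] at hν; exact h hν
    · simp

/-- If the restrictions of `p` to sets of variables are nonzero exactly when the set contains one
of the sets `E ω` (of size `n`, pairwise different) and `p` has degree at most `n`, then `p` is
a combination of the monomials of the sets `E ω` with nonzero coefficients. -/
theorem eq_sum_of_test {F ι Ω : Type*} [CommSemiring F] [DecidableEq ι] [Fintype Ω] {n : ℕ}
    (E : Ω → Finset ι) (hE : ∀ ω, (E ω).card = n) (hinj : Function.Injective E)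
    (p : MvPolynomial ι F) (hdeg : p.totalDegree ≤ n)
    (htest : ∀ H : Finset ι,
      aeval (fun e => if e ∈ H then (X e : MvPolynomial ι F) else 0) p ≠ 0 ↔ ∃ ω, E ω ⊆ H) :
    ∃ c : Ω → F, (∀ ω, c ω ≠ 0) ∧ p = ∑ ω, C (c ω) * ∏ e ∈ E ω, X e := by
  classical
  let ν : Ω → (ι →₀ ℕ) := fun ω => ∑ e ∈ E ω, Finsupp.single e 1
  have hν : ∀ ω e, ν ω e = if e ∈ E ω then 1 else 0 := by
    intro ω e
    simp only [ν, Finsupp.finsetSum_apply, Finsupp.single_apply]
    rw [sum_ite_eq']
  have hνs : ∀ ω, (ν ω).support = E ω := by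
    intro ω
    ext e
    rw [Finsupp.mem_support_iff, hν]
    by_cases h : e ∈ E ω <;> simp [h]
  have hνi : Function.Injective ν := by
    intro ω ω' h
    apply hinj
    rw [← hνs, ← hνs, h]
  -- monomials of `p`
  have hmon : ∀ μ ∈ p.support, ∃ ω, μ = ν ω := by
    intro μ hμ
    have h1 : aeval (fun e => if e ∈ μ.support then (X e : MvPolynomial ι F) else 0) p ≠ 0 := by
      intro h0
      have := coeff_restrict μ.support p μ
      rw [h0, if_pos (Subset.refl _), coeff_zero] at this
      exact (mem_support_iff.mp hμ) this.symm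
    obtain ⟨ω, hω⟩ := (htest _).mp h1
    refine ⟨ω, ?_⟩
    have hdμ : (∑ e ∈ μ.support, μ e) ≤ n := by
      have := le_totalDegree hμ
      exact le_trans this hdeg
    -- compare degrees
    have h2 : ∑ e ∈ μ.support, μ e = ∑ e ∈ μ.support, ν ω e + ∑ e ∈ μ.support, (μ e - ν ω e) := by
      rw [← sum_add_distrib]
      refine sum_congr rfl (fun e he => ?_)
      have h3 : ν ω e ≤ μ e := by
        rw [hν]
        have := Finsupp.mem_support_iff.mp he
        split_ifs <;> omega
      omega
    have h4 : ∑ e ∈ μ.support, ν ω e = n := by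
      rw [← hE ω, card_eq_sum_ones]
      simp only [hν]
      rw [← sum_filter]
      congr 1
      ext e
      rw [mem_filter]
      exact ⟨fun h => h.2, fun h => ⟨hω h, h⟩⟩
    have h5 : ∑ e ∈ μ.support, (μ e - ν ω e) = 0 := by omega
    rw [sum_eq_zero_iff] at h5
    ext e
    by_cases he : e ∈ μ.support
    · have h6 := h5 e he
      have h3 : ν ω e ≤ μ e := by
        rw [hν]
        have := Finsupp.mem_support_iff.mp he
        split_ifs <;> omega
      omega
    · have h7 : e ∉ E ω := fun h => he (hω h)
      rw [Finsupp.notMem_support_iff.mp he, hν, if_neg h7]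
  refine ⟨fun ω => coeff (ν ω) p, ?_, ?_⟩
  · intro ω h0
    have h1 := (htest (E ω)).mpr ⟨ω, Subset.refl _⟩
    obtain ⟨μ, hμ⟩ := ne_zero_iff.mp h1
    rw [coeff_restrict] at hμ
    have h2 : μ.support ⊆ E ω := by
      by_contra h
      rw [if_neg h] at hμ
      exact hμ rfl
    rw [if_pos h2] at hμ
    obtain ⟨ω', rfl⟩ := hmon μ (mem_support_iff.mpr hμ)
    rw [hνs] at h2
    have h3 : E ω' = E ω := eq_of_subset_of_card_le h2 (by rw [hE, hE])
    rw [hinj h3] at hμ
    exact hμ h0
  · have h1 : ∀ ω, (C (coeff (ν ω) p) * ∏ e ∈ E ω, X e : MvPolynomial ι F) =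
        monomial (ν ω) (coeff (ν ω) p) := by
      intro ω
      have h2 : (∏ e ∈ E ω, X e : MvPolynomial ι F) = monomial (ν ω) 1 := by
        simp only [ν]
        rw [monomial_sum_one]
        rfl
      rw [h2, C_mul_monomial, mul_one]
    simp only [h1]
    ext μ
    rw [coeff_sum]
    simp only [coeff_monomial]
    by_cases hμ : ∃ ω, μ = ν ω
    · obtain ⟨ω, rfl⟩ := hμ
      rw [sum_eq_single ω]
      · simp
      · intro ω' _ h
        rw [if_neg (fun h' => h (hνi h'))]
      · intro h; exact absurd (mem_univ _) h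
    · rw [sum_eq_zero]
      · by_contra h
        exact hμ (hmon μ (mem_support_iff.mpr h))
      · intro ω _
        rw [if_neg (fun h => hμ ⟨ω, h.symm⟩)]

end Pool.Agent.Helper14.Sym
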