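import Pool.Agent.Helper14.Sym.Abs

/-! Three-dimensional matchings: the counting bound. -/

namespace Pool.Agent.Helper14.Sym

open Finset

set_option linter.unusedSectionVars false

variable {G : Type*} [CommGroup G] [DecidableEq G] {n : ℕ}

theorem card_pairs_le (S T U : Finset (Fin n)) :
    (univ.filter (fun ω : Equiv.Perm (Fin n) × Equiv.Perm (Fin n) =>
      S.image ω.1 = T ∧ S.image ω.2 = U)).card ≤
      (S.card.factorial * (n - S.card).factorial) ^ 2 := by
  classical
  have h : (univ.filter (fun ω : Equiv.Perm (Fin n) × Equiv.Perm (Fin n) =>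
      S.image ω.1 = T ∧ S.image ω.2 = U)) =
      (univ.filter (fun σ : Equiv.Perm (Fin n) => S.image σ = T)) ×ˢ
        (univ.filter (fun τ : Equiv.Perm (Fin n) => S.image τ = U)) := by
    ext ω
    simp only [mem_filter, mem_univ, true_and, mem_product]
  rw [h, card_product, pow_two]
  exact Nat.mul_le_mul (card_perms_le S T) (card_perms_le S U)

theorem comb3 (hn : 0 < n) (d₁ d₂ d₃ : Fin n → G)
    (hd : ∀ S T U S' T' U' : Finset (Fin n), S.card = T.card → S.card = U.card →
      S'.card = T'.card → S'.card = U'.card →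
      (∏ i ∈ S, d₁ i) * (∏ j ∈ T, d₂ j) * (∏ l ∈ U, d₃ l) =
        (∏ i ∈ S', d₁ i) * (∏ j ∈ T', d₂ j) * (∏ l ∈ U', d₃ l) → S = S' ∧ T = T' ∧ U = U')
    (D : G → ℤ) (V : Finset G)
    (H : ∀ σ τ : Equiv.Perm (Fin n), ∃ s t : Fin n → G,
      (∀ i, t i * (d₁ i * d₂ (σ i) * d₃ (τ i)) = s i) ∧
      (∀ v, D v = cnt s t univ v) ∧ ∀ i, t i ∈ V) :
    (2 * n).choose n - 1 ≤ V.card := by
  classical
  let w : Equiv.Perm (Fin n) × Equiv.Perm (Fin n) → Fin n → G :=
    fun ω i => d₁ i * d₂ (ω.1 i) * d₃ (ω.2 i)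
  have hprod : ∀ (ω : Equiv.Perm (Fin n) × Equiv.Perm (Fin n)) (S : Finset (Fin n)),
      ∏ i ∈ S, w ω i = (∏ i ∈ S, d₁ i) * (∏ j ∈ S.image ω.1, d₂ j) * ∏ l ∈ S.image ω.2, d₃ l := by
    intro ω S
    simp only [w]
    rw [prod_mul_distrib, prod_mul_distrib, prod_image (fun a _ b _ h => ω.1.injective h),
      prod_image (fun a _ b _ h => ω.2.injective h)]
  have hci : ∀ (σ : Equiv.Perm (Fin n)) (S : Finset (Fin n)), S.card = (S.image σ).card :=
    fun σ S => (card_image_of_injective S σ.injective).symm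
  have h1 : ∀ (ω : Equiv.Perm (Fin n) × Equiv.Perm (Fin n)) (S : Finset (Fin n)), S.Nonempty →
      ∏ i ∈ S, w ω i ≠ 1 := by
    intro ω S hS he
    rw [hprod] at he
    have := hd S (S.image ω.1) (S.image ω.2) ∅ ∅ ∅ (hci _ S) (hci _ S) rfl rfl (by simpa using he)
    rw [this.1] at hS
    exact absurd hS (by simp)
  rcases comb_abs hn w h1 D V (fun ω => H ω.1 ω.2) with ⟨b, hb⟩ | ⟨b, hb⟩
  · let 𝒮 : Finset (Finset (Fin n) × Finset (Fin n) × Finset (Fin n)) :=
      univ.filter (fun p => p.1.card = p.2.1.card ∧ p.1.card = p.2.2.card ∧ p.1.Nonempty ∧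
        b * ((∏ i ∈ p.1, d₁ i) * (∏ j ∈ p.2.1, d₂ j) * ∏ l ∈ p.2.2, d₃ l)⁻¹ ∈ V)
    have hcov : ∀ l, 1 ≤ l → l ≤ n → (n.choose l) ^ 2 ≤ (𝒮.filter (fun p => p.1.card = l)).card := by
      intro l hl hln
      have hsub : (univ : Finset (Equiv.Perm (Fin n) × Equiv.Perm (Fin n))) ⊆
          (𝒮.filter (fun p => p.1.card = l)).biUnion
            (fun p => univ.filter (fun ω : Equiv.Perm (Fin n) × Equiv.Perm (Fin n) =>
              p.1.image ω.1 = p.2.1 ∧ p.1.image ω.2 = p.2.2)) := by
        intro ω _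
        obtain ⟨S, hc, hv⟩ := hb ω l hl hln
        rw [mem_biUnion]
        refine ⟨(S, S.image ω.1, S.image ω.2), ?_, by simp⟩
        rw [mem_filter, mem_filter]
        refine ⟨⟨mem_univ _, hci _ S, hci _ S, ?_, ?_⟩, hc⟩
        · rw [← card_pos]; simp only; omega
        · simp only
          rw [← hprod]; exact hv
      have hcard := card_le_card hsub
      rw [card_univ, Fintype.card_prod, Fintype.card_perm, Fintype.card_fin] at hcard
      have h2 : ∀ p ∈ 𝒮.filter (fun p => p.1.card = l),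
          (univ.filter (fun ω : Equiv.Perm (Fin n) × Equiv.Perm (Fin n) =>
            p.1.image ω.1 = p.2.1 ∧ p.1.image ω.2 = p.2.2)).card ≤
            (l.factorial * (n - l).factorial) ^ 2 := by
        intro p hp
        have := card_pairs_le p.1 p.2.1 p.2.2
        rwa [(mem_filter.mp hp).2] at this
      have h3 := hcard.trans (card_biUnion_le_card_mul _ _ _ h2)
      have h4 : n.factorial * n.factorial =
          (n.choose l) ^ 2 * (l.factorial * (n - l).factorial) ^ 2 := by
        rw [← Nat.choose_mul_factorial_mul_factorial hln]; ring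
      rw [h4] at h3
      exact Nat.le_of_mul_le_mul_right h3
        (pow_pos (Nat.mul_pos (Nat.factorial_pos _) (Nat.factorial_pos _)) 2)
    have hsum : (2 * n).choose n - 1 ≤ 𝒮.card := by
      have e1 : 𝒮.card = ∑ l ∈ Icc 1 n, (𝒮.filter (fun p => p.1.card = l)).card := by
        apply card_eq_sum_card_fiberwise
        intro p hp
        have hp' := (mem_filter.mp hp).2
        rw [coe_Icc, Set.mem_Icc]
        refine ⟨card_pos.mpr hp'.2.2.1, ?_⟩
        simpa using card_le_univ p.1
      rw [e1]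
      have e2 : ∑ l ∈ Icc 1 n, (n.choose l) ^ 2 = (2 * n).choose n - 1 := by
        have h := Nat.sum_range_choose_sq n
        rw [range_eq_Ico, ← sum_erase_add _ _ (mem_Ico.mpr ⟨le_rfl, Nat.succ_pos n⟩ : 0 ∈ Ico 0 (n + 1))] at h
        have e3 : (Ico 0 (n + 1)).erase 0 = Icc 1 n := by
          ext x; simp only [mem_erase, mem_Ico, mem_Icc]; omega
        rw [e3, Nat.choose_zero_right] at h
        omega
      rw [← e2]
      apply sum_le_sum
      intro l hl
      rw [mem_Icc] at hl
      exact hcov l hl.1 hl.2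
    refine hsum.trans ?_
    apply card_le_card_of_injOn
      (fun p => b * ((∏ i ∈ p.1, d₁ i) * (∏ j ∈ p.2.1, d₂ j) * ∏ l ∈ p.2.2, d₃ l)⁻¹)
    · intro p hp
      exact (mem_filter.mp hp).2.2.2.2
    · intro p hp q hq hpq
      have hp' := (mem_filter.mp hp).2
      have hq' := (mem_filter.mp hq).2
      have := hd p.1 p.2.1 p.2.2 q.1 q.2.1 q.2.2 hp'.1 hp'.2.1 hq'.1 hq'.2.1
        (inv_injective (mul_left_cancel hpq))
      exact Prod.ext this.1 (Prod.ext this.2.1 this.2.2)
  · exfalso
    let N : Finset G := V.filter (fun a => D a < 0)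
    have hN : N.card ≤ n := by
      obtain ⟨s, t, he, hD, ht⟩ := H 1 1
      exact card_neg_le hD N (fun a ha => (mem_filter.mp ha).2)
    have hn2 : 2 ≤ n := by
      obtain ⟨a, -, -, S, hS, hS', -⟩ := hb (1, 1)
      have h1 := card_pos.mpr hS
      have h2 : S.card < n := by
        have := card_lt_univ_of_notMem
          (Classical.choose_spec (not_forall.mp (fun h => hS' (eq_univ_iff_forall.mpr h))))
        simpa using this
      omega
    let SA : G → Finset (Equiv.Perm (Fin n) × Equiv.Perm (Fin n)) := fun a =>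
      univ.filter (fun ω => ∃ S : Finset (Fin n), S.Nonempty ∧ S ≠ univ ∧
        a * ∏ i ∈ S, w ω i = b)
    have hSA : ∀ a, (SA a).card ≤ ((n - 1).factorial) ^ 2 := by
      intro a
      rcases (SA a).eq_empty_or_nonempty with h | h
      · rw [h, card_empty]; exact Nat.zero_le _
      · obtain ⟨ω₀, hω₀⟩ := h
        obtain ⟨S₀, hS₀, hS₀', hp₀⟩ := (mem_filter.mp hω₀).2
        have hsub : SA a ⊆ univ.filter (fun ω : Equiv.Perm (Fin n) × Equiv.Perm (Fin n) =>
            S₀.image ω.1 = S₀.image ω₀.1 ∧ S₀.image ω.2 = S₀.image ω₀.2) := by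
          intro ω hω
          obtain ⟨S, hS, hS', hp⟩ := (mem_filter.mp hω).2
          rw [mem_filter]
          refine ⟨mem_univ _, ?_⟩
          have heq : ∏ i ∈ S, w ω i = ∏ i ∈ S₀, w ω₀ i :=
            mul_left_cancel (hp.trans hp₀.symm)
          rw [hprod, hprod] at heq
          have := hd _ _ _ _ _ _ (hci _ S) (hci _ S) (hci _ S₀) (hci _ S₀) heq
          rw [← this.2.1, ← this.2.2, this.1]
          exact ⟨rfl, rfl⟩
        refine (card_le_card hsub).trans ((card_pairs_le _ _ _).trans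
          (Nat.pow_le_pow_left (fact_mul_le ?_ ?_) 2))
        · exact card_pos.mpr hS₀
        · have := card_lt_univ_of_notMem
            (Classical.choose_spec (not_forall.mp (fun h => hS₀' (eq_univ_iff_forall.mpr h))))
          simpa using this
    have hcov : (univ : Finset (Equiv.Perm (Fin n) × Equiv.Perm (Fin n))) ⊆ N.biUnion SA := by
      intro ω _
      obtain ⟨a, haV, haD, hS⟩ := hb ω
      rw [mem_biUnion]
      exact ⟨a, mem_filter.mpr ⟨haV, haD⟩, mem_filter.mpr ⟨mem_univ _, hS⟩⟩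
    have hcard := (card_le_card hcov).trans
      (card_biUnion_le_card_mul _ _ _ (fun a _ => hSA a))
    rw [card_univ, Fintype.card_prod, Fintype.card_perm, Fintype.card_fin] at hcard
    have hn' : n.factorial = n * (n - 1).factorial := by
      obtain ⟨k, rfl⟩ : ∃ k, n = k + 1 := ⟨n - 1, by omega⟩
      rw [Nat.factorial_succ]; simp
    rw [hn'] at hcard
    have h5 : n * n * ((n - 1).factorial) ^ 2 ≤ n * ((n - 1).factorial) ^ 2 :=
      calc n * n * ((n - 1).factorial) ^ 2 = n * (n - 1).factorial * (n * (n - 1).factorial) := by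
            ring
        _ ≤ _ := hcard
        _ ≤ _ := Nat.mul_le_mul_right _ hN
    have h6 := Nat.le_of_mul_le_mul_right h5 (pow_pos (Nat.factorial_pos _) 2)
    nlinarith

end Pool.Agent.Helper14.Sym
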