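import Pool.Agent.Helper14.Sym.Tri
import Pool.Agent.Helper14.Sym.Data
import Pool.Agent.Helper14.Sym.Grade
import Pool.Agent.Helper14.Sym.Expand

/-! Three-dimensional matchings: the determinantal bound over an algebraically closed field. -/

namespace Pool.Agent.Helper14.Sym

open Finset Matrix Module

theorem main3 {F : Type*} [Field F] [IsAlgClosed F] {n m : ℕ} (hn : 0 < n)
    (A₀ : Matrix (Fin m) (Fin m) F) (A : Fin n × Fin n × Fin n → Matrix (Fin m) (Fin m) F)
    (c : Equiv.Perm (Fin n) × Equiv.Perm (Fin n) → F) (hc : ∀ ω, c ω ≠ 0)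
    (hdet : ∀ x : Fin n × Fin n × Fin n → F, (A₀ + ∑ p, x p • A p).det =
      ∑ ω, c ω * ∏ i, x (i, ω.1 i, ω.2 i))
    (d₁ d₂ d₃ : Fin n → Fˣ)
    (hd : ∀ S T U S' T' U' : Finset (Fin n), S.card = T.card → S.card = U.card →
      S'.card = T'.card → S'.card = U'.card →
      (∏ i ∈ S, d₁ i) * (∏ j ∈ T, d₂ j) * (∏ l ∈ U, d₃ l) =
        (∏ i ∈ S', d₁ i) * (∏ j ∈ T', d₂ j) * (∏ l ∈ U', d₃ l) → S = S' ∧ T = T' ∧ U = U')
    (P R : Matrix (Fin m) (Fin m) F) (hP : IsUnit P.det) (hR : IsUnit R.det)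
    (h0 : P * A₀ * R = A₀)
    (h1 : ∀ p, P * A p * R = ((d₁ p.1 * d₂ p.2.1 * d₃ p.2.2 : Fˣ) : F) • A p) :
    (2 * n).choose n - 1 ≤ m := by
  classical
  have hinf : Infinite F := IsAlgClosed.instInfinite
  obtain ⟨U, W, ρ, γ, hU, hW, hg0, hg⟩ := exists_graded P R hP hR A₀ A
    (fun p => d₁ p.1 * d₂ p.2.1 * d₃ p.2.2) h0 h1
  have hcard : ∀ g : Fin m → Fˣ, (univ.image g).card ≤ m := by
    intro g
    have := card_image_le (s := (univ : Finset (Fin m))) (f := g)
    simpa using this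
  refine (comb3 hn d₁ d₂ d₃ hd (exc ρ γ) (univ.image ρ) (fun σ τ => ?_)).trans (hcard ρ)
  let N₀ := U * A₀ * W
  let N : Fin n × Fin n × Fin n → Matrix (Fin m) (Fin m) F := fun p => U * A p * W
  have hu0 : U.det * W.det * c (σ, τ) ≠ 0 := mul_ne_zero (mul_ne_zero hU hW) (hc _)
  have hN : ∀ x : Fin n × Fin n × Fin n → F, (N₀ + ∑ p, x p • N p).det =
      U.det * W.det * ∑ ω : Equiv.Perm (Fin n) × Equiv.Perm (Fin n),
        c ω * ∏ i, x (i, ω.1 i, ω.2 i) := by
    intro x
    have : N₀ + ∑ p, x p • N p = U * (A₀ + ∑ p, x p • A p) * W := by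
      rw [Matrix.mul_add, Matrix.add_mul, Matrix.mul_sum, Matrix.sum_mul]
      congr 1
      refine sum_congr rfl (fun p _ => ?_)
      rw [Matrix.mul_smul, Matrix.smul_mul]
    rw [this, det_mul, det_mul, hdet]
    ring
  have hpoly : (Matrix.of fun r s => (MvPolynomial.C (N₀ r s) +
      ∑ i, MvPolynomial.X i * MvPolynomial.C (N (i, σ i, τ i) r s) : MvPolynomial (Fin n) F)).det =
      MvPolynomial.C (U.det * W.det * c (σ, τ)) * ∏ i, MvPolynomial.X i := by
    apply MvPolynomial.funext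
    intro t
    rw [map_mul, map_prod, MvPolynomial.eval_C, RingHom.map_det]
    simp only [MvPolynomial.eval_X]
    have e1 := hN (fun p => if p.2 = (σ p.1, τ p.1) then t p.1 else 0)
    have e2 : ∑ ω : Equiv.Perm (Fin n) × Equiv.Perm (Fin n), c ω *
        ∏ i, (if ((ω.1 i, ω.2 i) : Fin n × Fin n) = (σ i, τ i) then t i else 0) =
        c (σ, τ) * ∏ i, t i := by
      rw [sum_eq_single (σ, τ)]
      · simp
      · intro ω _ hω
        have : ∃ i, ((ω.1 i, ω.2 i) : Fin n × Fin n) ≠ (σ i, τ i) := by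
          by_contra hcon
          push Not at hcon
          apply hω
          apply Prod.ext
          · apply Equiv.ext
            intro i
            exact congrArg Prod.fst (hcon i)
          · apply Equiv.ext
            intro i
            exact congrArg Prod.snd (hcon i)
        obtain ⟨i, hi⟩ := this
        rw [prod_eq_zero (mem_univ i), mul_zero]
        rw [if_neg hi]
      · intro h; exact absurd (mem_univ _) h
    simp only at e1
    rw [e2] at e1
    rw [mul_assoc, ← e1]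
    congr 1
    ext r s
    rw [RingHom.mapMatrix_apply, map_apply, of_apply, Matrix.add_apply, Matrix.sum_apply,
      map_add, map_sum, MvPolynomial.eval_C, Fintype.sum_prod_type]
    congr 1
    refine sum_congr rfl (fun i _ => ?_)
    rw [map_mul, MvPolynomial.eval_C, MvPolynomial.eval_X, sum_eq_single (σ i, τ i)]
    · simp
    · intro j _ hj
      simp [hj]
    · intro h; exact absurd (mem_univ _) h
  obtain ⟨π, φ, hφ, hne⟩ := expand N₀ (fun i => N (i, σ i, τ i)) _ hu0 hpoly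
  obtain ⟨s, t, a1, a2, a3, -⟩ := data ρ γ (fun i => d₁ i * d₂ (σ i) * d₃ (τ i)) π φ hφ
    (fun c' hc' => hg0 _ _ ((hne c').1 hc'))
    (fun c' i hc' => hg (i, σ i, τ i) _ _ ((hne c').2 i hc'))
  exact ⟨s, t, a1, a2, a3⟩

end Pool.Agent.Helper14.Sym
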